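import Pool.Agent.H52.MG.Basic
import Pool.Agent.H52.MG.Targets

/-!
# Module CLQ: infinitesimal motions of a complete graph
-/

set_option autoImplicit false

noncomputable section

open Classical Module
open scoped Matrix

namespace Pool.Agent.H94.MG

open Pool.Agent.H52.MG

/-- `(a × b) × a = (a·a) b - (a·b) a` -/
lemma cross_cross_self (a b : Vec) : (a ⨯₃ b) ⨯₃ a = (a ⬝ᵥ a) • b - (a ⬝ᵥ b) • a := by
  apply vec_ext <;> simp only [cross_eq, dot3, Pi.sub_apply, Pi.smul_apply, smul_eq_mul,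
    Matrix.cons_val] <;> ring

/-- `v × (a × b) = (v·b) a - (v·a) b` -/
lemma cross_cross_eq (v a b : Vec) : v ⨯₃ (a ⨯₃ b) = (v ⬝ᵥ b) • a - (v ⬝ᵥ a) • b := by
  apply vec_ext <;> simp only [cross_eq, dot3, Pi.sub_apply, Pi.smul_apply, smul_eq_mul,
    Matrix.cons_val] <;> ring

lemma cross_self_dot (w a : Vec) : (w ⨯₃ a) ⬝ᵥ a = 0 := by
  simp only [cross_eq, dot3, Matrix.cons_val]; ring

lemma two_point (a b ma mb : Vec) (hab : a ≠ b) (h : (ma - mb) ⬝ᵥ (a - b) = 0) :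
    ∃ S : Scr, ev S a = ma ∧ ev S b = mb := by
  have hd : (a - b) ⬝ᵥ (a - b) ≠ 0 := by
    intro h0
    exact hab (sub_eq_zero.mp (dotProduct_self_eq_zero.mp h0))
  set D := (a - b) ⬝ᵥ (a - b) with hD
  set w : Vec := (1 / D) • ((a - b) ⨯₃ (ma - mb)) with hw
  have h1 : w ⨯₃ (a - b) = ma - mb := by
    rw [hw, map_smul, LinearMap.smul_apply, cross_cross_self, ← hD, dotProduct_comm (a - b), h,
      zero_smul, sub_zero, smul_smul, one_div, inv_mul_cancel₀ hd, one_smul]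
  refine ⟨(w, ma - w ⨯₃ a), ?_, ?_⟩
  · simp only [ev]; abel
  · simp only [ev]
    have h2 : w ⨯₃ b = w ⨯₃ a - w ⨯₃ (a - b) := by rw [map_sub]; abel
    rw [h2, h1]; abel

lemma orth_two (v a b : Vec) (ha : v ⬝ᵥ a = 0) (hb : v ⬝ᵥ b = 0) (hab : a ⨯₃ b ≠ 0) :
    ∃ r : ℝ, v = r • (a ⨯₃ b) := by
  apply cross_zero v (a ⨯₃ b) hab
  rw [cross_cross_eq, ha, hb, zero_smul, zero_smul, sub_zero]

lemma ev_sub_dot (S : Scr) (x y : Vec) : (ev S x - ev S y) ⬝ᵥ (x - y) = 0 := by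
  rw [ev_sub_ev]; exact cross_self_dot _ _

lemma three_point (x y z mx my mz : Vec) (hn : (y - x) ⨯₃ (z - x) ≠ 0)
    (hxy : (mx - my) ⬝ᵥ (x - y) = 0) (hxz : (mz - mx) ⬝ᵥ (z - x) = 0)
    (hyz : (mz - my) ⬝ᵥ (z - y) = 0) :
    ∃ S : Scr, ev S x = mx ∧ ev S y = my ∧ ev S z = mz := by
  have hne : x ≠ y := by
    rintro rfl
    apply hn; simp
  obtain ⟨S, hSx, hSy⟩ := two_point x y mx my hne hxy
  set v := mz - ev S z with hv
  have h1 : v ⬝ᵥ (z - x) = 0 := by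
    have h2 := ev_sub_dot S z x
    rw [hSx] at h2
    have h3 : v = (mz - mx) - (ev S z - mx) := by rw [hv]; abel
    rw [h3, sub_dotProduct, hxz, h2, sub_zero]
  have h4 : v ⬝ᵥ (z - y) = 0 := by
    have h2 := ev_sub_dot S z y
    rw [hSy] at h2
    have h3 : v = (mz - my) - (ev S z - my) := by rw [hv]; abel
    rw [h3, sub_dotProduct, hyz, h2, sub_zero]
  have h5 : v ⬝ᵥ (y - x) = 0 := by
    have h6 : y - x = (z - x) - (z - y) := by abel
    rw [h6, dotProduct_sub, h1, h4, sub_zero]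
  obtain ⟨r, hr⟩ := orth_two v (y - x) (z - x) h5 h1 hn
  refine ⟨S + r • lin x y, ?_, ?_, ?_⟩
  · rw [ev_add, ev_smul, ev_lin_left, smul_zero, add_zero, hSx]
  · rw [ev_add, ev_smul, ev_lin_right, smul_zero, add_zero, hSy]
  · rw [ev_add, ev_smul, ev_lin]
    have h7 : (y - x) ⨯₃ (z - y) = (y - x) ⨯₃ (z - x) := by
      apply vec_ext <;> simp only [cross_eq, Pi.sub_apply, Matrix.cons_val] <;> ring
    rw [h7, ← hr, hv]; abel

lemma orth_three (v a b c : Vec) (ha : v ⬝ᵥ a = 0) (hb : v ⬝ᵥ b = 0) (hc : v ⬝ᵥ c = 0)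
    (hd : a ⬝ᵥ (b ⨯₃ c) ≠ 0) : v = 0 := by
  have hbc : b ⨯₃ c ≠ 0 := by
    intro h; apply hd; rw [h]; simp
  obtain ⟨r, hr⟩ := orth_two v b c hb hc hbc
  have h1 : r * (a ⬝ᵥ (b ⨯₃ c)) = 0 := by
    have h2 : v ⬝ᵥ a = r * (a ⬝ᵥ (b ⨯₃ c)) := by
      rw [hr, smul_dotProduct, smul_eq_mul, dotProduct_comm]
    rw [← h2, ha]
  rcases mul_eq_zero.mp h1 with h | h
  · rw [hr, h, zero_smul]
  · exact absurd h hd

/-- Module CLQ. -/
theorem clq (hGP : T_GP) : T_CLQ := by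
  intro V _ p hp X m hm
  obtain ⟨g1, g2, g3⟩ := hGP V p hp
  rcases X.eq_empty_or_nonempty with hX | ⟨x, hx⟩
  · exact ⟨0, fun u hu => by rw [hX] at hu; exact hu.elim⟩
  by_cases h2 : ∃ y ∈ X, y ≠ x
  · obtain ⟨y, hy, hyx⟩ := h2
    by_cases h3 : ∃ z ∈ X, z ≠ x ∧ z ≠ y
    · obtain ⟨z, hz, hzx, hzy⟩ := h3
      have hn := g2 x y z hyx.symm hzx.symm hzy.symm
      obtain ⟨S, hSx, hSy, hSz⟩ := three_point (p x) (p y) (p z) (m x) (m y) (m z) hn
        (hm x hx y hy) (hm z hz x hx) (hm z hz y hy)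
      refine ⟨S, fun u hu => ?_⟩
      by_cases e1 : u = x
      · rw [e1, hSx]
      by_cases e2 : u = y
      · rw [e2, hSy]
      by_cases e3 : u = z
      · rw [e3, hSz]
      have hd := g3 x y z u hyx.symm hzx.symm (Ne.symm e1) hzy.symm (Ne.symm e2) (Ne.symm e3)
      have key : ∀ w ∈ X, ev S (p w) = m w → (m u - ev S (p u)) ⬝ᵥ (p u - p w) = 0 := by
        intro w hw hSw
        have h4 := ev_sub_dot S (p u) (p w)
        rw [hSw] at h4
        have h5 : m u - ev S (p u) = (m u - m w) - (ev S (p u) - m w) := by abel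
        rw [h5, sub_dotProduct, hm u hu w hw, h4, sub_zero]
      have k1 := key x hx hSx
      have k2 := key y hy hSy
      have k3 := key z hz hSz
      have k4 : (m u - ev S (p u)) ⬝ᵥ (p y - p x) = 0 := by
        have h6 : p y - p x = (p u - p x) - (p u - p y) := by abel
        rw [h6, dotProduct_sub, k1, k2, sub_zero]
      have k5 : (m u - ev S (p u)) ⬝ᵥ (p z - p x) = 0 := by
        have h6 : p z - p x = (p u - p x) - (p u - p z) := by abel
        rw [h6, dotProduct_sub, k1, k3, sub_zero]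
      have := orth_three _ _ _ _ k4 k5 k1 hd
      exact sub_eq_zero.mp this
    · push Not at h3
      obtain ⟨S, hSx, hSy⟩ := two_point (p x) (p y) (m x) (m y) (g1 x y hyx.symm)
        (hm x hx y hy)
      refine ⟨S, fun u hu => ?_⟩
      by_cases e1 : u = x
      · rw [e1, hSx]
      · rw [h3 u hu e1, hSy]
  · push Not at h2
    refine ⟨(0, m x), fun u hu => ?_⟩
    rw [h2 u hu]
    simp [ev]

end Pool.Agent.H94.MG
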