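import Pool.Agent.H94.MG.LA4

/-!
# Module LA1
-/

set_option autoImplicit false

noncomputable section

open Classical Module
open scoped Matrix

namespace Pool.Agent.H94.MG

open Pool.Agent.H52.MG

/-- generators of a two dimensional subspace -/
lemma exists_gen_two {M : Type} [AddCommGroup M] [Module ℝ M] [Module.Finite ℝ M]
    (U : Submodule ℝ M) (h : finrank ℝ U = 2) :
    ∃ S₁ ∈ U, ∃ S₂ ∈ U, (∀ a b : ℝ, a • S₁ + b • S₂ = 0 → a = 0 ∧ b = 0) ∧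
      ∀ S ∈ U, ∃ a b : ℝ, S = a • S₁ + b • S₂ := by
  have B : Module.Basis (Fin 2) ℝ U := finBasisOfFinrankEq ℝ U h
  refine ⟨B 0, (B 0).2, B 1, (B 1).2, ?_, ?_⟩
  · intro a b hab
    have h1 : a • B 0 + b • B 1 = 0 := by
      apply Subtype.ext
      simpa using hab
    have h2 := Fintype.linearIndependent_iff.mp B.linearIndependent ![a, b]
      (by simpa [Fin.sum_univ_two] using h1)
    exact ⟨h2 0, h2 1⟩
  · intro S hS
    have h1 := B.sum_repr ⟨S, hS⟩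
    refine ⟨B.repr ⟨S, hS⟩ 0, B.repr ⟨S, hS⟩ 1, ?_⟩
    have h2 := congrArg (Submodule.subtype U) h1
    rw [Fin.sum_univ_two] at h2
    simpa using h2.symm

lemma ev_zero_left_ne (S : Scr) (h : S ≠ 0) : ∃ y : Vec, ev S y ≠ 0 := by
  by_contra hc
  push Not at hc
  apply h
  refine scr_three S ![0, 0, 0] ![1, 0, 0] ![0, 1, 0] ?_ (hc _) (hc _) (hc _)
  intro h0
  have h1 := congrFun h0 2
  rw [cross_eq] at h1
  simp at h1

/-- the case where the values at `s` are independent -/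
lemma la1_caseB (S₁ S₂ : Scr) (s : Vec) (h : ev S₁ s ⨯₃ ev S₂ s ≠ 0) :
    ∃ x₀ y₀ : Vec, ∀ a b : ℝ, kl (a • S₁ + b • S₂) (lin x₀ y₀) = 0 →
      kl (a • S₁ + b • S₂) (lin s y₀) = 0 → a = 0 ∧ b = 0 := by
  set e1 := ev S₁ s with he1
  set e2 := ev S₂ s with he2
  set η : Vec := e2 ⨯₃ (e1 ⨯₃ e2) with hη
  have hη2 : e2 ⬝ᵥ η = 0 := by
    rw [hη]; simp only [cross_eq, dot3, Matrix.cons_val]; ring
  have hη1 : e1 ⬝ᵥ η = (e1 ⨯₃ e2) ⬝ᵥ (e1 ⨯₃ e2) := by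
    rw [hη]; simp only [cross_eq, dot3, Matrix.cons_val]; ring
  have hη1' : e1 ⬝ᵥ η ≠ 0 := by rw [hη1]; exact self_dot_ne _ h
  have he2ne : e2 ≠ 0 := by
    intro h0; apply h; rw [h0]; simp
  -- choice of the sign
  obtain ⟨t, ht0, ht⟩ : ∃ t : ℝ, t ≠ 0 ∧ ev S₂ (s + t • η) ≠ 0 := by
    by_contra hc
    push Not at hc
    have h1 := hc 1 one_ne_zero
    have h2 := hc (-1) (by norm_num)
    have h3 : ev S₂ (s + (1 : ℝ) • η) + ev S₂ (s + (-1 : ℝ) • η) = (2 : ℝ) • e2 := by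
      rw [he2]
      apply vec_ext <;> simp only [ev, cross_eq, Pi.add_apply, Pi.smul_apply, smul_eq_mul,
        Matrix.cons_val] <;> ring
    rw [h1, h2, add_zero] at h3
    rcases smul_eq_zero.mp h3.symm with h4 | h4
    · norm_num at h4
    · exact he2ne h4
  set y₀ := s + t • η with hy₀
  set v := ev S₂ y₀ with hv
  have hyz : y₀ - s = t • η := by rw [hy₀]; abel
  refine ⟨y₀ - v, y₀, ?_⟩
  intro a b h1 h2
  rw [kl_lin] at h2
  have h3 : ev (a • S₁ + b • S₂) s = a • e1 + b • e2 := by rw [ev_add, ev_smul, ev_smul]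
  rw [h3, hyz, dotProduct_smul, add_dotProduct, smul_dotProduct, smul_dotProduct, hη2] at h2
  simp only [smul_eq_mul, mul_zero, add_zero] at h2
  have ha : a = 0 := by
    rcases mul_eq_zero.mp h2 with h4 | h4
    · exact absurd h4 ht0
    · rcases mul_eq_zero.mp h4 with h5 | h5
      · exact h5
      · exact absurd h5 hη1'
  refine ⟨ha, ?_⟩
  rw [kl_lin', ha, zero_smul, zero_add, ev_smul, smul_dotProduct, smul_eq_mul] at h1
  have h5 : y₀ - (y₀ - v) = v := by abel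
  rw [h5] at h1
  rcases mul_eq_zero.mp h1 with h4 | h4
  · exact h4
  · exact absurd h4 (self_dot_ne v ht)

/-- the case where `S₂` vanishes at `s` -/
lemma la1_caseA (S₁ S₂ : Scr) (s : Vec) (h1 : ev S₁ s ≠ 0) (h2 : ev S₂ s = 0) (hS2 : S₂ ≠ 0) :
    ∃ x₀ y₀ : Vec, ∀ a b : ℝ, kl (a • S₁ + b • S₂) (lin x₀ y₀) = 0 →
      kl (a • S₁ + b • S₂) (lin s y₀) = 0 → a = 0 ∧ b = 0 := by
  set e1 := ev S₁ s with he1
  have hω : S₂.1 ≠ 0 := by
    intro h0
    apply hS2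
    refine Prod.ext h0 ?_
    have h3 := h2
    rw [ev, h0] at h3
    simpa using h3
  have hev : ∀ z : Vec, ev S₂ (s + z) = S₂.1 ⨯₃ z := by
    intro z
    have h3 := ev_sub_ev S₂ (s + z) s
    rw [h2, sub_zero] at h3
    rw [h3]; congr 1; abel
  obtain ⟨z, hz1, hz2⟩ : ∃ z : Vec, e1 ⬝ᵥ z ≠ 0 ∧ S₂.1 ⨯₃ z ≠ 0 := by
    by_cases h3 : S₂.1 ⨯₃ e1 = 0
    · obtain ⟨d, hd⟩ := exists_cross_ne S₂.1 hω
      have hd' : S₂.1 ⨯₃ d ≠ 0 := by
        intro h4
        apply hd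
        rw [← cross_anticomm, h4, neg_zero]
      by_cases h4 : e1 ⬝ᵥ (e1 + d) = 0
      · refine ⟨e1 - d, ?_, ?_⟩
        · intro h5
          have h6 : e1 ⬝ᵥ e1 = 0 := by
            rw [dotProduct_add] at h4
            rw [dotProduct_sub] at h5
            linarith
          exact self_dot_ne e1 h1 h6
        · rw [map_sub, h3, zero_sub]
          exact neg_ne_zero.mpr hd'
      · refine ⟨e1 + d, h4, ?_⟩
        rw [map_add, h3, zero_add]
        exact hd'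
    · exact ⟨e1, self_dot_ne e1 h1, h3⟩
  set y₀ := s + z with hy₀
  have hyz : y₀ - s = z := by rw [hy₀]; abel
  refine ⟨y₀ - ev S₂ y₀, y₀, ?_⟩
  intro a b k1 k2
  rw [kl_lin] at k2
  have h3 : ev (a • S₁ + b • S₂) s = a • e1 := by
    rw [ev_add, ev_smul, ev_smul, h2, smul_zero, add_zero]
  rw [h3, hyz, smul_dotProduct, smul_eq_mul] at k2
  have ha : a = 0 := by
    rcases mul_eq_zero.mp k2 with h4 | h4
    · exact h4
    · exact absurd h4 hz1
  refine ⟨ha, ?_⟩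
  rw [kl_lin', ha, zero_smul, zero_add, ev_smul, smul_dotProduct, smul_eq_mul] at k1
  have h5 : y₀ - (y₀ - ev S₂ y₀) = ev S₂ y₀ := by abel
  rw [h5] at k1
  rcases mul_eq_zero.mp k1 with h4 | h4
  · exact h4
  · exact absurd h4 (self_dot_ne _ (by rw [hev]; exact hz2))

/-- Module LA1 for two screws -/
lemma la1_two (S₁ S₂ : Scr) (s : Vec) (hind : ∀ a b : ℝ, a • S₁ + b • S₂ = 0 → a = 0 ∧ b = 0)
    (h : ev S₁ s ≠ 0) :
    ∃ x₀ y₀ : Vec, ∀ a b : ℝ, kl (a • S₁ + b • S₂) (lin x₀ y₀) = 0 →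
      kl (a • S₁ + b • S₂) (lin s y₀) = 0 → a = 0 ∧ b = 0 := by
  by_cases h1 : ev S₁ s ⨯₃ ev S₂ s = 0
  · obtain ⟨c, hc⟩ := cross_zero (ev S₂ s) (ev S₁ s) h (by rw [← cross_anticomm, h1, neg_zero])
    have h2 : ev (S₂ - c • S₁) s = 0 := by rw [ev_sub, ev_smul, hc, sub_self]
    have h3 : S₂ - c • S₁ ≠ 0 := by
      intro h4
      have h5 := hind (-c) 1 (by rw [← h4]; module)
      exact one_ne_zero h5.2
    obtain ⟨x₀, y₀, hxy⟩ := la1_caseA S₁ (S₂ - c • S₁) s h h2 h3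
    refine ⟨x₀, y₀, fun a b k1 k2 => ?_⟩
    have h4 : a • S₁ + b • S₂ = (a + b * c) • S₁ + b • (S₂ - c • S₁) := by module
    rw [h4] at k1 k2
    obtain ⟨h5, h6⟩ := hxy _ _ k1 k2
    rw [h6, zero_mul, add_zero] at h5
    exact ⟨h5, h6⟩
  · exact la1_caseB S₁ S₂ s h1

/-- Module LA1. -/
theorem la1 : T_LA1 := by
  intro U s hU h2
  rcases Nat.lt_or_ge (finrank ℝ U) 2 with hlt | hge
  · obtain ⟨S₀, hS₀, hgen⟩ := exists_gen_one U (by omega)
    by_cases h0 : S₀ = 0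
    · refine ⟨0, 0, fun S hS _ _ => ?_⟩
      obtain ⟨c, hc⟩ := hgen S hS
      rw [hc, h0, smul_zero]
    · obtain ⟨y₀, hy₀⟩ := ev_zero_left_ne S₀ h0
      refine ⟨y₀ - ev S₀ y₀, y₀, fun S hS k1 _ => ?_⟩
      obtain ⟨c, hc⟩ := hgen S hS
      rw [hc, kl_smul, kl_lin'] at k1
      have h5 : y₀ - (y₀ - ev S₀ y₀) = ev S₀ y₀ := by abel
      rw [h5] at k1
      rcases mul_eq_zero.mp k1 with h4 | h4
      · rw [hc, h4, zero_smul]
      · exact absurd h4 (self_dot_ne _ hy₀)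
  · have h3 : finrank ℝ U = 2 := by omega
    obtain ⟨S₁, hS₁, S₂, hS₂, hind, hgen⟩ := exists_gen_two U h3
    obtain ⟨S, hS, hSs⟩ := h2 h3
    obtain ⟨a, b, hab⟩ := hgen S hS
    by_cases h4 : ev S₁ s = 0
    · have h5 : ev S₂ s ≠ 0 := by
        intro h6
        apply hSs
        rw [hab, ev_add, ev_smul, ev_smul, h4, h6, smul_zero, smul_zero, add_zero]
      obtain ⟨x₀, y₀, hxy⟩ := la1_two S₂ S₁ s
        (fun a b h6 => by
          have := hind b a (by rw [← h6]; abel)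
          exact ⟨this.2, this.1⟩) h5
      refine ⟨x₀, y₀, fun T hT k1 k2 => ?_⟩
      obtain ⟨a', b', hab'⟩ := hgen T hT
      have h7 : T = b' • S₂ + a' • S₁ := by rw [hab']; abel
      rw [h7] at k1 k2
      obtain ⟨h8, h9⟩ := hxy _ _ k1 k2
      rw [h7, h8, h9, zero_smul, zero_smul, add_zero]
    · obtain ⟨x₀, y₀, hxy⟩ := la1_two S₁ S₂ s hind h4
      refine ⟨x₀, y₀, fun T hT k1 k2 => ?_⟩
      obtain ⟨a', b', hab'⟩ := hgen T hT
      rw [hab'] at k1 k2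
      obtain ⟨h8, h9⟩ := hxy _ _ k1 k2
      rw [hab', h8, h9, zero_smul, zero_smul, add_zero]

end Pool.Agent.H94.MG
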