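import Pool.Agent.H94.MG.LA1

/-!
# Module LA2
-/

set_option autoImplicit false

noncomputable section

open Classical Module
open scoped Matrix

namespace Pool.Agent.H94.MG

open Pool.Agent.H52.MG

/-- the vector `(e₁·ζ) ev S₂ (s+ζ) - (e₂·ζ) ev S₁ (s+ζ)` -/
def kv (S₁ S₂ : Scr) (s ζ : Vec) : Vec :=
  (ev S₁ s ⬝ᵥ ζ) • ev S₂ (s + ζ) - (ev S₂ s ⬝ᵥ ζ) • ev S₁ (s + ζ)

lemma kv_caseB (S₁ S₂ : Scr) (s : Vec) (h : ev S₁ s ⨯₃ ev S₂ s ≠ 0) : ∃ ζ, kv S₁ S₂ s ζ ≠ 0 := by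
  set e1 := ev S₁ s with he1
  set e2 := ev S₂ s with he2
  set η : Vec := e2 ⨯₃ (e1 ⨯₃ e2) with hη
  have hη2 : e2 ⬝ᵥ η = 0 := by
    rw [hη]; simp only [cross_eq, dot3, Matrix.cons_val]; ring
  have hη1 : e1 ⬝ᵥ η = (e1 ⨯₃ e2) ⬝ᵥ (e1 ⨯₃ e2) := by
    rw [hη]; simp only [cross_eq, dot3, Matrix.cons_val]; ring
  have hη1' : e1 ⬝ᵥ η ≠ 0 := by rw [hη1]; exact self_dot_ne _ h
  have he2ne : e2 ≠ 0 := by
    intro h0; apply h; rw [h0]; simp
  obtain ⟨t, ht0, ht⟩ : ∃ t : ℝ, t ≠ 0 ∧ ev S₂ (s + t • η) ≠ 0 := by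
    by_contra hc
    push Not at hc
    have h1 := hc 1 one_ne_zero
    have h2 := hc (-1) (by norm_num)
    have h3 : ev S₂ (s + (1 : ℝ) • η) + ev S₂ (s + (-1 : ℝ) • η) = (2 : ℝ) • e2 := by
      rw [he2]
      apply vec_ext <;> simp only [ev, cross_eq, Pi.add_apply, Pi.smul_apply, smul_eq_mul,
        Matrix.cons_val] <;> ring
    rw [h1, h2, add_zero] at h3
    rcases smul_eq_zero.mp h3.symm with h4 | h4
    · norm_num at h4
    · exact he2ne h4
  refine ⟨t • η, ?_⟩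
  unfold kv
  rw [← he1, ← he2, dotProduct_smul, dotProduct_smul, hη2, smul_zero, zero_smul, sub_zero]
  exact smul_ne_zero (mul_ne_zero ht0 hη1') ht

lemma kv_caseA (S₁ S₂ : Scr) (s : Vec) (h1 : ev S₁ s ≠ 0) (h2 : ev S₂ s = 0) (hS2 : S₂ ≠ 0) :
    ∃ ζ, kv S₁ S₂ s ζ ≠ 0 := by
  set e1 := ev S₁ s with he1
  have hω : S₂.1 ≠ 0 := by
    intro h0
    apply hS2
    refine Prod.ext h0 ?_
    have h3 := h2
    rw [ev, h0] at h3
    simpa using h3
  have hev : ∀ z : Vec, ev S₂ (s + z) = S₂.1 ⨯₃ z := by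
    intro z
    have h3 := ev_sub_ev S₂ (s + z) s
    rw [h2, sub_zero] at h3
    rw [h3]; congr 1; abel
  obtain ⟨z, hz1, hz2⟩ : ∃ z : Vec, e1 ⬝ᵥ z ≠ 0 ∧ S₂.1 ⨯₃ z ≠ 0 := by
    by_cases h3 : S₂.1 ⨯₃ e1 = 0
    · obtain ⟨d, hd⟩ := exists_cross_ne S₂.1 hω
      have hd' : S₂.1 ⨯₃ d ≠ 0 := by
        intro h4
        apply hd
        rw [← cross_anticomm, h4, neg_zero]
      by_cases h4 : e1 ⬝ᵥ (e1 + d) = 0
      · refine ⟨e1 - d, ?_, ?_⟩
        · intro h5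
          have h6 : e1 ⬝ᵥ e1 = 0 := by
            rw [dotProduct_add] at h4
            rw [dotProduct_sub] at h5
            linarith
          exact self_dot_ne e1 h1 h6
        · rw [map_sub, h3, zero_sub]
          exact neg_ne_zero.mpr hd'
      · refine ⟨e1 + d, h4, ?_⟩
        rw [map_add, h3, zero_add]
        exact hd'
    · exact ⟨e1, self_dot_ne e1 h1, h3⟩
  refine ⟨z, ?_⟩
  unfold kv
  rw [← he1, h2, zero_dotProduct, zero_smul, sub_zero, hev]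
  exact smul_ne_zero hz1 hz2

lemma kv_change (S₁ S₂ : Scr) (s ζ : Vec) (c : ℝ) :
    kv S₁ (S₂ - c • S₁) s ζ = kv S₁ S₂ s ζ := by
  unfold kv
  rw [ev_sub, ev_smul, ev_sub, ev_smul, sub_dotProduct, smul_dotProduct, smul_eq_mul]
  module

lemma kv_swap (S₁ S₂ : Scr) (s ζ : Vec) : kv S₂ S₁ s ζ = - kv S₁ S₂ s ζ := by
  unfold kv
  module

lemma kv_one (S₁ S₂ : Scr) (s : Vec) (hind : ∀ a b : ℝ, a • S₁ + b • S₂ = 0 → a = 0 ∧ b = 0)
    (h : ev S₁ s ≠ 0) : ∃ ζ, kv S₁ S₂ s ζ ≠ 0 := by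
  by_cases h1 : ev S₁ s ⨯₃ ev S₂ s = 0
  · obtain ⟨c, hc⟩ := cross_zero (ev S₂ s) (ev S₁ s) h (by rw [← cross_anticomm, h1, neg_zero])
    have h2 : ev (S₂ - c • S₁) s = 0 := by rw [ev_sub, ev_smul, hc, sub_self]
    have h3 : S₂ - c • S₁ ≠ 0 := by
      intro h4
      have h5 := hind (-c) 1 (by rw [← h4]; module)
      exact one_ne_zero h5.2
    obtain ⟨ζ, hζ⟩ := kv_caseA S₁ (S₂ - c • S₁) s h h2 h3
    exact ⟨ζ, by rwa [kv_change] at hζ⟩
  · exact kv_caseB S₁ S₂ s h1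

lemma kv_exists (S₁ S₂ : Scr) (s : Vec) (hind : ∀ a b : ℝ, a • S₁ + b • S₂ = 0 → a = 0 ∧ b = 0)
    (h : ev S₁ s ≠ 0 ∨ ev S₂ s ≠ 0) : ∃ ζ, kv S₁ S₂ s ζ ≠ 0 := by
  rcases h with h | h
  · exact kv_one S₁ S₂ s hind h
  · obtain ⟨ζ, hζ⟩ := kv_one S₂ S₁ s (fun a b h6 => by
      have := hind b a (by rw [← h6]; abel)
      exact ⟨this.2, this.1⟩) h
    refine ⟨ζ, ?_⟩
    rw [kv_swap] at hζ
    exact neg_ne_zero.mp hζ

/-- `kv` is the cross product of `ζ` with the product of the two values -/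
lemma kv_cross (S₁ S₂ : Scr) (s ζ : Vec) :
    ζ ⨯₃ (ev S₁ (s + ζ) ⨯₃ ev S₂ (s + ζ)) = - kv S₁ S₂ s ζ := by
  have h : ∀ S : Scr, ζ ⬝ᵥ ev S (s + ζ) = ev S s ⬝ᵥ ζ := by
    intro S
    simp only [ev, cross_eq, dot3, Pi.add_apply, Matrix.cons_val]; ring
  rw [cross_cross_eq, h, h]
  unfold kv
  module

/-- independence of three vectors from the product -/
lemma indep_of_cross (u v d n : Vec) (hd : d = n ⨯₃ (u ⨯₃ v)) (hne : n ⨯₃ (u ⨯₃ v) ≠ 0)
    (a b r : ℝ) (h : a • u + b • v = r • (d ⨯₃ n)) : a = 0 ∧ b = 0 ∧ r = 0 := by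
  have h1 : (u ⨯₃ v) ⬝ᵥ (a • u + b • v) = 0 := by
    simp only [cross_eq, dot3, Pi.add_apply, Pi.smul_apply, smul_eq_mul, Matrix.cons_val]; ring
  have h2 : (u ⨯₃ v) ⬝ᵥ (d ⨯₃ n) = (n ⨯₃ (u ⨯₃ v)) ⬝ᵥ (n ⨯₃ (u ⨯₃ v)) := by
    rw [hd]; simp only [cross_eq, dot3, Matrix.cons_val]; ring
  have hr : r = 0 := by
    rw [h, dotProduct_smul, h2, smul_eq_mul] at h1
    rcases mul_eq_zero.mp h1 with h3 | h3
    · exact h3
    · exact absurd h3 (self_dot_ne _ hne)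
  have huv : u ⨯₃ v ≠ 0 := by
    intro h0; apply hne; rw [h0]; simp
  rw [hr, zero_smul] at h
  have ha : a • (u ⨯₃ v) = 0 := by
    have : a • (u ⨯₃ v) = (a • u + b • v) ⨯₃ v := by
      rw [map_add, LinearMap.add_apply, map_smul, map_smul, LinearMap.smul_apply,
        LinearMap.smul_apply, cross_self, smul_zero, add_zero]
    rw [this, h]; simp
  have hb : b • (u ⨯₃ v) = 0 := by
    have : b • (u ⨯₃ v) = u ⨯₃ (a • u + b • v) := by
      rw [map_add, map_smul, map_smul, cross_self, smul_zero, zero_add]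
    rw [this, h]; simp
  refine ⟨?_, ?_, hr⟩
  · rcases smul_eq_zero.mp ha with h3 | h3
    · exact h3
    · exact absurd h3 huv
  · rcases smul_eq_zero.mp hb with h3 | h3
    · exact h3
    · exact absurd h3 huv

/-- Module LA2. -/
theorem la2 : T_LA2 := by
  intro U s hU h2
  rcases Nat.lt_or_ge (finrank ℝ U) 2 with hlt | hge
  · obtain ⟨S₀, hS₀, hgen⟩ := exists_gen_one U (by omega)
    by_cases h0 : S₀ = 0
    · have hn : (![1, 0, 0] : Vec) ≠ 0 := by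
        intro h
        have := congrFun h 0
        simp at this
      obtain ⟨d, hd⟩ := exists_cross_ne _ hn
      refine ⟨s - d, s + ![1, 0, 0], ?_, ?_⟩
      · intro h
        have : d = 0 := sub_eq_self.mp h
        apply hd; rw [this]; simp
      · intro S hS r h
        obtain ⟨c, hc⟩ := hgen S hS
        have hS0 : S = 0 := by rw [hc, h0, smul_zero]
        refine ⟨hS0, ?_⟩
        rw [hS0, ev_zero, ev_lin] at h
        have h1 : s - (s - d) = d := by abel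
        have h3 : s + ![1, 0, 0] - s = (![1, 0, 0] : Vec) := by abel
        rw [h1, h3] at h
        rcases smul_eq_zero.mp h.symm with h2 | h2
        · exact h2
        · exact absurd h2 hd
    · obtain ⟨z₀, hz₀s, hz₀⟩ : ∃ z₀ : Vec, z₀ ≠ s ∧ ev S₀ z₀ ≠ 0 := by
        obtain ⟨y₀, hy₀⟩ := ev_zero_left_ne S₀ h0
        by_cases hys : y₀ = s
        · rw [hys] at hy₀
          by_contra hc
          push Not at hc
          have hn : (![1, 0, 0] : Vec) ≠ 0 := by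
            intro h
            have := congrFun h 0
            simp at this
          have h1 := hc (s + ![1, 0, 0]) (fun h => hn (add_eq_left.mp h))
          have h3 := hc (s - ![1, 0, 0]) (fun h => hn (sub_eq_self.mp h))
          have h4 : ev S₀ (s + ![1, 0, 0]) + ev S₀ (s - ![1, 0, 0]) = (2 : ℝ) • ev S₀ s := by
            apply vec_ext <;> simp only [ev, cross_eq, Pi.add_apply, Pi.sub_apply, Pi.smul_apply,
              smul_eq_mul, Matrix.cons_val] <;> ring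
          rw [h1, h3, add_zero] at h4
          rcases smul_eq_zero.mp h4.symm with h5 | h5
          · norm_num at h5
          · exact hy₀ h5
        · exact ⟨y₀, hys, hy₀⟩
      obtain ⟨d, hd⟩ := exists_cross_nonparallel (z₀ - s) (ev S₀ z₀) (sub_ne_zero.mpr hz₀s) hz₀
      refine ⟨s - d, z₀, ?_, ?_⟩
      · intro h
        have : d = 0 := sub_eq_self.mp h
        apply hd; rw [this]; simp
      · intro S hS r h
        obtain ⟨c, hc⟩ := hgen S hS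
        rw [hc, ev_smul, ev_lin] at h
        have h1 : s - (s - d) = d := by abel
        rw [h1] at h
        have h2 : c • (ev S₀ z₀ ⨯₃ (d ⨯₃ (z₀ - s))) = 0 := by
          have h3 : c • (ev S₀ z₀ ⨯₃ (d ⨯₃ (z₀ - s))) = (c • ev S₀ z₀) ⨯₃ (d ⨯₃ (z₀ - s)) := by
            rw [map_smul, LinearMap.smul_apply]
          rw [h3, h, map_smul, LinearMap.smul_apply, cross_self, smul_zero]
        have hc0 : c = 0 := by
          rcases smul_eq_zero.mp h2 with h4 | h4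
          · exact h4
          · exact absurd h4 hd
        refine ⟨by rw [hc, hc0, zero_smul], ?_⟩
        rw [hc0, zero_smul] at h
        rcases smul_eq_zero.mp h.symm with h5 | h5
        · exact h5
        · exfalso; apply hd; rw [h5]; simp
  · have h3 : finrank ℝ U = 2 := by omega
    obtain ⟨S₁, hS₁, S₂, hS₂, hind, hgen⟩ := exists_gen_two U h3
    obtain ⟨S, hS, hSs⟩ := h2 h3
    obtain ⟨a, b, hab⟩ := hgen S hS
    have hor : ev S₁ s ≠ 0 ∨ ev S₂ s ≠ 0 := by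
      by_contra hc
      push Not at hc
      apply hSs
      rw [hab, ev_add, ev_smul, ev_smul, hc.1, hc.2, smul_zero, smul_zero, add_zero]
    obtain ⟨ζ, hζ⟩ := kv_exists S₁ S₂ s hind hor
    have hne : ζ ⨯₃ (ev S₁ (s + ζ) ⨯₃ ev S₂ (s + ζ)) ≠ 0 := by
      rw [kv_cross]; exact neg_ne_zero.mpr hζ
    refine ⟨s - ζ ⨯₃ (ev S₁ (s + ζ) ⨯₃ ev S₂ (s + ζ)), s + ζ, ?_, ?_⟩
    · intro h
      exact hne (sub_eq_self.mp h)
    · intro T hT r h
      obtain ⟨a', b', hab'⟩ := hgen T hT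
      rw [hab', ev_add, ev_smul, ev_smul, ev_lin] at h
      have h1 : s - (s - ζ ⨯₃ (ev S₁ (s + ζ) ⨯₃ ev S₂ (s + ζ))) =
        ζ ⨯₃ (ev S₁ (s + ζ) ⨯₃ ev S₂ (s + ζ)) := by abel
      have h4 : s + ζ - s = ζ := by abel
      rw [h1, h4] at h
      obtain ⟨k1, k2, k3⟩ := indep_of_cross _ _ _ ζ rfl hne a' b' r h
      exact ⟨by rw [hab', k1, k2, zero_smul, zero_smul, add_zero], k3⟩

end Pool.Agent.H94.MG
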