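import Pool.Agent.H94.MG.LA1

/-!
# Module LA3: a nonvanishing Gram determinant
-/

set_option autoImplicit false

noncomputable section

open Classical Module
open scoped Matrix

namespace Pool.Agent.H94.MG

open Pool.Agent.H52.MG

/-- a vector outside finitely many proper subspaces -/
lemma exists_avoid {E : Type} [AddCommGroup E] [Module ℝ E] {n : ℕ} (p : Fin n → Submodule ℝ E)
    (hp : ∀ i, p i ≠ ⊤) : ∃ x : E, ∀ i, x ∉ p i := by
  by_contra hc
  push Not at hc
  have : (⋃ i, (p i : Set E)) = Set.univ := by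
    rw [Set.iUnion_eq_univ_iff]
    exact hc
  obtain ⟨i, hi⟩ := Subspace.exists_eq_top_of_iUnion_eq_univ this
  exact hp i hi

/-- the Klein form as a bilinear form -/
def KB : LinearMap.BilinForm ℝ Scr :=
  LinearMap.mk₂ ℝ kl (fun a b c => kl_add a b c) (fun r a b => kl_smul r a b)
    (fun a b c => kl_add' b c a) (fun r a b => kl_smul' r b a)

lemma KB_apply (S T : Scr) : KB S T = kl S T := rfl

lemma kl_nondeg (R : Scr) (h : ∀ T, kl R T = 0) : R = 0 := by
  have h1 := h (R.2, R.1)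
  simp only [kl] at h1
  have h2 : 0 ≤ R.1 ⬝ᵥ R.1 := by
    rw [dot3]
    nlinarith [mul_self_nonneg (R.1 0), mul_self_nonneg (R.1 1), mul_self_nonneg (R.1 2)]
  have h3 : 0 ≤ R.2 ⬝ᵥ R.2 := by
    rw [dot3]
    nlinarith [mul_self_nonneg (R.2 0), mul_self_nonneg (R.2 1), mul_self_nonneg (R.2 2)]
  have h4 : R.1 ⬝ᵥ R.1 = 0 := by linarith
  have h5 : R.2 ⬝ᵥ R.2 = 0 := by linarith
  exact Prod.ext (dotProduct_self_eq_zero.mp h4) (dotProduct_self_eq_zero.mp h5)

lemma KB_refl : KB.IsRefl := by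
  intro x y h
  rw [KB_apply] at h ⊢
  rw [kl_comm, h]

lemma KB_nondeg : KB.Nondegenerate := by
  refine ⟨fun x h => kl_nondeg x (fun T => h T), fun y h => kl_nondeg y (fun T => ?_)⟩
  rw [kl_comm]; exact h T

/-- Gram determinants and wrenches -/
lemma gram_ne (v : Fin 5 → Scr) (W : Scr) (hW : kl W W ≠ 0) (hv : LinearIndependent ℝ v)
    (hWv : ∀ i, kl W (v i) = 0) : (Matrix.of fun i j : Fin 5 => kl (v i) (v j)).det ≠ 0 := by
  intro hdet
  obtain ⟨c, hc0, hc⟩ := Matrix.exists_vecMul_eq_zero_iff.mpr hdet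
  set u : Scr := ∑ i, c i • v i with hu
  have hkl : ∀ (T : Scr), kl u T = ∑ i, c i * kl (v i) T := by
    intro T
    rw [← KB_apply, hu, map_sum, LinearMap.sum_apply]
    refine Finset.sum_congr rfl fun i _ => ?_
    rw [map_smul, LinearMap.smul_apply, KB_apply, smul_eq_mul]
  have h1 : ∀ j, kl u (v j) = 0 := by
    intro j
    rw [hkl]
    have := congrFun hc j
    simpa [Matrix.vecMul, dotProduct] using this
  have h2 : kl u W = 0 := by
    rw [hkl]
    apply Finset.sum_eq_zero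
    intro i _
    rw [kl_comm, hWv, mul_zero]
  -- the six vectors span
  have hli : LinearIndependent ℝ (Fin.cons W v : Fin 6 → Scr) := by
    rw [linearIndependent_finCons]
    refine ⟨hv, fun hmem => ?_⟩
    apply hW
    have hle : Submodule.span ℝ (Set.range v) ≤ LinearMap.ker (KB W) := by
      rw [Submodule.span_le]
      rintro _ ⟨i, rfl⟩
      exact hWv i
    exact hle hmem
  have hspan : Submodule.span ℝ (Set.range (Fin.cons W v : Fin 6 → Scr)) = ⊤ := by
    apply hli.span_eq_top_of_card_eq_finrank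
    rw [finrank_scr]; simp
  have hu0 : u = 0 := by
    apply kl_nondeg
    intro T
    have hT : T ∈ Submodule.span ℝ (Set.range (Fin.cons W v : Fin 6 → Scr)) := by
      rw [hspan]; trivial
    have hle : Submodule.span ℝ (Set.range (Fin.cons W v : Fin 6 → Scr)) ≤
        LinearMap.ker (KB u) := by
      rw [Submodule.span_le]
      rintro _ ⟨i, rfl⟩
      refine Fin.cases ?_ (fun j => ?_) i
      · exact h2
      · exact h1 j
    exact hle hT
  apply hc0
  funext i
  exact Fintype.linearIndependent_iff.mp hv c hu0 i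

/-- a line orthogonal to `W` but not to `R` -/
lemma exists_line (W R : Scr) (hW : kl W W ≠ 0) (hR : ∀ c : ℝ, R ≠ c • W) :
    ∃ x ζ : Vec, ev W x ⬝ᵥ ζ = 0 ∧ ev R x ⬝ᵥ ζ ≠ 0 := by
  have hW12 : W.1 ⬝ᵥ W.2 ≠ 0 := by
    intro h
    apply hW
    rw [kl, dotProduct_comm W.2, h, add_zero]
  have hW1 : W.1 ≠ 0 := by
    intro h
    apply hW12; rw [h]; simp
  have key : ∃ x, ev R x ⨯₃ ev W x ≠ 0 := by
    by_contra hc
    push Not at hc
    have hn : R.1 ⨯₃ W.1 = 0 := by
      set n := R.1 ⨯₃ W.1 with hn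
      have h0 := hc 0
      have h1 := hc n
      have h2 := hc (-n)
      have h3 : ev R n ⨯₃ ev W n + ev R (-n) ⨯₃ ev W (-n) - (2 : ℝ) • (ev R 0 ⨯₃ ev W 0) =
          (2 : ℝ) • ((n ⬝ᵥ n) • n) := by
        rw [hn]
        apply vec_ext <;> simp only [ev, cross_eq, dot3, Pi.add_apply, Pi.sub_apply, Pi.neg_apply,
          Pi.smul_apply, Pi.zero_apply, smul_eq_mul, Matrix.cons_val] <;> ring
      rw [h0, h1, h2, smul_zero, add_zero, sub_zero] at h3
      by_contra hne
      rcases smul_eq_zero.mp h3.symm with h4 | h4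
      · norm_num at h4
      · rcases smul_eq_zero.mp h4 with h5 | h5
        · exact self_dot_ne n hne h5
        · exact hne h5
    obtain ⟨c, hcW⟩ := cross_zero R.1 W.1 hW1 hn
    have hR1 : (R - c • W).1 = 0 := by
      rw [Prod.fst_sub, Prod.smul_fst, hcW, sub_self]
    have h1 : ∀ x, (R - c • W).2 ⨯₃ ev W x = 0 := by
      intro x
      have h2 : ev (R - c • W) x = (R - c • W).2 := by
        rw [ev, hR1]; simp
      rw [← h2, ev_sub, ev_smul, map_sub, LinearMap.sub_apply, map_smul, LinearMap.smul_apply,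
        cross_self, smul_zero, sub_zero, hc x]
    by_cases h2 : (R - c • W).2 = 0
    · apply hR c
      have h3 : R - c • W = 0 := Prod.ext hR1 h2
      exact sub_eq_zero.mp h3
    · obtain ⟨d, hd⟩ := exists_cross_nonparallel W.1 _ hW1 h2
      apply hd
      have h4 := h1 (-d)
      have h5 := h1 0
      have h6 : d ⨯₃ W.1 = ev W (-d) - ev W 0 := by
        rw [ev_sub_ev]
        apply vec_ext <;> simp only [cross_eq, Pi.sub_apply, Pi.neg_apply, Pi.zero_apply,
          Matrix.cons_val] <;> ring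
      rw [h6, map_sub, h4, h5, sub_zero]
  obtain ⟨x, hx⟩ := key
  refine ⟨x, ev W x ⨯₃ (ev R x ⨯₃ ev W x), ?_, ?_⟩
  · simp only [cross_eq, dot3, Matrix.cons_val]; ring
  · have h1 : ev R x ⬝ᵥ (ev W x ⨯₃ (ev R x ⨯₃ ev W x)) =
        (ev R x ⨯₃ ev W x) ⬝ᵥ (ev R x ⨯₃ ev W x) := by
      simp only [cross_eq, dot3, Matrix.cons_val]; ring
    rw [h1]
    exact self_dot_ne _ hx

/-- the map `ξ ↦ (ξ, o × ξ)` -/
def lnL (o : Vec) : Vec →ₗ[ℝ] Scr := LinearMap.prod LinearMap.id (crossProduct o)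

lemma lnL_apply (o ξ : Vec) : lnL o ξ = (ξ, o ⨯₃ ξ) := rfl

lemma lnL_inj (o : Vec) : Function.Injective (lnL o) := fun _ _ h => congrArg Prod.fst h

lemma kl_lnL (R : Scr) (o ξ : Vec) : kl R (lnL o ξ) = ev R o ⬝ᵥ ξ := by
  simp only [kl, lnL_apply, ev, dot3, cross_eq, Pi.add_apply, Matrix.cons_val]; ring

lemma ev_lnL (o ξ : Vec) : ev (lnL o ξ) o = 0 := by
  apply vec_ext <;> simp only [lnL_apply, ev, cross_eq, Pi.add_apply, Pi.zero_apply,
    Matrix.cons_val] <;> ring

/-- the functional `ξ ↦ e · ξ` -/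
def dotL (e : Vec) : Vec →ₗ[ℝ] ℝ where
  toFun ξ := e ⬝ᵥ ξ
  map_add' := fun a b => dotProduct_add _ _ _
  map_smul' := fun r a => by simp

lemma dotL_apply (e ξ : Vec) : dotL e ξ = e ⬝ᵥ ξ := rfl

lemma ker_dotL_ne (e : Vec) (he : e ≠ 0) : LinearMap.ker (dotL e) ≠ ⊤ := by
  intro h
  have h1 : e ∈ LinearMap.ker (dotL e) := by rw [h]; trivial
  exact self_dot_ne e he h1

/-- the choice of a good screw -/
lemma exists_good (U : Submodule ℝ Scr) (s t : Vec) (hs : ∃ S ∈ U, ev S s ≠ 0)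
    (ht : ∃ S ∈ U, ev S t ≠ 0) : ∃ S ∈ U, ev S s ≠ 0 ∧ ev S t ≠ 0 := by
  obtain ⟨A, hA, hAs⟩ := hs
  obtain ⟨C, hC, hCt⟩ := ht
  by_cases h1 : ev A t = 0
  · by_cases h2 : ev C s = 0
    · refine ⟨A + C, U.add_mem hA hC, ?_, ?_⟩
      · rw [ev_add, h2, add_zero]; exact hAs
      · rw [ev_add, h1, zero_add]; exact hCt
    · exact ⟨C, hC, h2, hCt⟩
  · exact ⟨A, hA, hAs, h1⟩

/-- the wrench exists -/
lemma exists_wrench (N : Submodule ℝ Scr) (hN : finrank ℝ N = 4) (S L M : Scr) (hS : S ∈ N)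
    (hL : L ∈ N) (hM : M ∈ N) (hLL : kl L L = 0) (hMM : kl M M = 0)
    (hg : kl L M ≠ 0) (hG : 2 * (kl S L * kl S M) - kl S S * kl L M ≠ 0) :
    ∃ W R : Scr, (∀ T ∈ N, kl W T = 0) ∧ (∀ T ∈ N, kl R T = 0) ∧ kl W W ≠ 0 ∧
      ∀ c : ℝ, R ≠ c • W := by
  set O := KB.orthogonal N with hO
  have hOmem : ∀ W, W ∈ O ↔ ∀ T ∈ N, kl W T = 0 := by
    intro W
    rw [hO, LinearMap.BilinForm.mem_orthogonal_iff]
    constructor
    · intro h T hT
      rw [kl_comm]; exact h T hT
    · intro h T hT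
      have := h T hT
      rw [kl_comm] at this
      exact this
  have hOfin : finrank ℝ O = 2 := by
    rw [hO, LinearMap.BilinForm.finrank_orthogonal KB_nondeg, finrank_scr, hN]
  have hW : ∃ W ∈ O, kl W W ≠ 0 := by
    by_contra hc
    push Not at hc
    have hpol : ∀ w ∈ O, ∀ w' ∈ O, kl w w' = 0 := by
      intro w hw w' hw'
      have h1 := hc (w + w') (O.add_mem hw hw')
      rw [kl_add, kl_add', kl_add', hc w hw, hc w' hw', kl_comm w' w] at h1
      linarith
    have hON : O ≤ N := by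
      rw [← LinearMap.BilinForm.orthogonal_orthogonal KB_nondeg KB_refl N, ← hO]
      intro w hw
      rw [LinearMap.BilinForm.mem_orthogonal_iff]
      intro w' hw'
      exact hpol w' hw' w hw
    have hcoef : ∀ α γ δ : ℝ, kl (α • S + γ • L + δ • M) S = 0 →
        kl (α • S + γ • L + δ • M) L = 0 → kl (α • S + γ • L + δ • M) M = 0 →
        α = 0 ∧ γ = 0 ∧ δ = 0 := by
      intro α γ δ e1 e2 e3
      simp only [kl_add, kl_smul] at e1 e2 e3
      rw [hLL] at e2
      rw [hMM] at e3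
      rw [kl_comm L S, kl_comm M S] at e1
      rw [kl_comm M L] at e2
      have hα : α = 0 := by
        have h1 : α * (2 * (kl S L * kl S M) - kl S S * kl L M) = 0 := by
          linear_combination (-kl L M) * e1 + (kl S M) * e2 + (kl S L) * e3
        exact (mul_eq_zero.mp h1).resolve_right hG
      rw [hα] at e2 e3
      refine ⟨hα, ?_, ?_⟩
      · have : γ * kl L M = 0 := by linarith
        exact (mul_eq_zero.mp this).resolve_right hg
      · have : δ * kl L M = 0 := by linarith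
        exact (mul_eq_zero.mp this).resolve_right hg
    have hli : LinearIndependent ℝ ![S, L, M] := by
      rw [Fintype.linearIndependent_iff]
      intro g hg0
      rw [Fin.sum_univ_three] at hg0
      have hg1 : g 0 • S + g 1 • L + g 2 • M = 0 := by simpa using hg0
      obtain ⟨h1, h2, h3⟩ := hcoef (g 0) (g 1) (g 2) (by rw [hg1]; simp) (by rw [hg1]; simp)
        (by rw [hg1]; simp)
      intro i
      fin_cases i
      · exact h1
      · exact h2
      · exact h3
    set M3 := Submodule.span ℝ (Set.range ![S, L, M]) with hM3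
    have hM3fin : finrank ℝ M3 = 3 := by
      rw [hM3, finrank_span_eq_card hli]; simp
    have hM3N : M3 ≤ N := by
      rw [hM3, Submodule.span_le]
      rintro _ ⟨i, rfl⟩
      fin_cases i
      · exact hS
      · exact hL
      · exact hM
    have hsum := Submodule.finrank_sup_add_finrank_inf_eq M3 O
    have hle : finrank ℝ (M3 ⊔ O : Submodule ℝ Scr) ≤ 4 := by
      rw [← hN]; exact Submodule.finrank_mono (sup_le hM3N hON)
    have hpos : 0 < finrank ℝ (M3 ⊓ O : Submodule ℝ Scr) := by omega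
    have hne : (M3 ⊓ O : Submodule ℝ Scr) ≠ ⊥ := by
      intro h
      rw [h, finrank_bot] at hpos
      exact lt_irrefl _ hpos
    obtain ⟨m, hm, hm0⟩ := Submodule.exists_mem_ne_zero_of_ne_bot hne
    apply hm0
    obtain ⟨hm1, hm2⟩ := hm
    rw [hM3, SetLike.mem_coe, Submodule.mem_span_range_iff_exists_fun] at hm1
    obtain ⟨c, hcm⟩ := hm1
    rw [Fin.sum_univ_three] at hcm
    have hcm' : c 0 • S + c 1 • L + c 2 • M = m := by simpa using hcm
    have hmO := (hOmem m).mp hm2
    obtain ⟨h1, h2, h3⟩ := hcoef (c 0) (c 1) (c 2) (by rw [hcm']; exact hmO S hS)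
      (by rw [hcm']; exact hmO L hL) (by rw [hcm']; exact hmO M hM)
    rw [← hcm', h1, h2, h3]; simp
  obtain ⟨W, hWO, hWW⟩ := hW
  have hR : ∃ R ∈ O, ∀ c : ℝ, R ≠ c • W := by
    by_contra hc
    push Not at hc
    have hle : O ≤ Submodule.span ℝ {W} := by
      intro R hR
      obtain ⟨c, hcR⟩ := hc R hR
      rw [hcR]
      exact Submodule.smul_mem _ _ (Submodule.mem_span_singleton_self W)
    have h1 := Submodule.finrank_mono hle
    have hW0 : W ≠ 0 := by
      rintro rfl
      apply hWW; simp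
    have h2 : finrank ℝ (Submodule.span ℝ {W}) = 1 := finrank_span_singleton hW0
    omega
  obtain ⟨R, hRO, hRW⟩ := hR
  exact ⟨W, R, (hOmem W).mp hWO, (hOmem R).mp hRO, hWW, hRW⟩

/-- the range of `lnL o` has dimension three -/
lemma finrank_range_lnL (o : Vec) : finrank ℝ (LinearMap.range (lnL o)) = 3 := by
  rw [LinearMap.finrank_range_of_inj (lnL_inj o)]; simp [Vec]

/-- Module LA3. -/
theorem la3 : T_LA3 := by
  intro S₁ S₂ s t hli hst hs ht
  set U := Submodule.span ℝ ({S₁, S₂} : Set Scr) with hU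
  have hUfin : finrank ℝ U = 2 := by
    have h1 : U = Submodule.span ℝ (Set.range ![S₁, S₂]) := by
      rw [hU]; congr 1
      ext T; simp [eq_comm, or_comm]
    rw [h1, finrank_span_eq_card hli]; simp
  obtain ⟨S, hSU, hSs, hSt⟩ := exists_good U s t hs ht
  set n := t - s with hn
  have hn0 : n ≠ 0 := sub_ne_zero.mpr hst.symm
  -- choice of `ξ`
  let Fm : Vec →ₗ[ℝ] Vec := (dotL (ev S s)).smulRight ((2 : ℝ) • ev S t) + kl S S • crossProduct n
  have hFm : ∀ ξ, Fm ξ = (ev S s ⬝ᵥ ξ) • ((2 : ℝ) • ev S t) + kl S S • (n ⨯₃ ξ) := by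
    intro ξ; simp [Fm, dotL_apply]
  have hF : LinearMap.ker Fm ≠ ⊤ := by
    intro h
    have h0 : ∀ ξ, Fm ξ = 0 := by
      intro ξ
      have : ξ ∈ LinearMap.ker Fm := by rw [h]; trivial
      exact this
    by_cases hk : kl S S = 0
    · have h1 := h0 (ev S s)
      rw [hFm, hk, zero_smul, add_zero] at h1
      rcases smul_eq_zero.mp h1 with h2 | h2
      · exact self_dot_ne _ hSs h2
      · rcases smul_eq_zero.mp h2 with h3 | h3
        · norm_num at h3
        · exact hSt h3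
    · obtain ⟨d, hd⟩ := exists_cross_nonparallel (ev S s) n hSs hn0
      have h1 := h0 (d ⨯₃ ev S s)
      have h2 : ev S s ⬝ᵥ (d ⨯₃ ev S s) = 0 := by
        simp only [cross_eq, dot3, Matrix.cons_val]; ring
      rw [hFm, h2, zero_smul, zero_add] at h1
      rcases smul_eq_zero.mp h1 with h3 | h3
      · exact hk h3
      · exact hd h3
  have hp1 : U.comap (lnL s) ≠ ⊤ := by
    intro h
    have h1 : LinearMap.range (lnL s) ≤ U := by
      rintro _ ⟨ξ, rfl⟩
      have : ξ ∈ U.comap (lnL s) := by rw [h]; trivial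
      exact this
    have h2 := Submodule.finrank_mono h1
    rw [finrank_range_lnL, hUfin] at h2
    omega
  have hp2 : LinearMap.ker (crossProduct n) ≠ ⊤ := by
    intro h
    obtain ⟨d, hd⟩ := exists_cross_ne n hn0
    have h1 : d ∈ LinearMap.ker (crossProduct n) := by rw [h]; trivial
    have h2 : n ⨯₃ d = 0 := h1
    apply hd
    rw [← cross_anticomm, h2, neg_zero]
  obtain ⟨ξ, hξ⟩ := exists_avoid ![U.comap (lnL s), LinearMap.ker (crossProduct n),
    LinearMap.ker Fm] (by
      intro i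
      fin_cases i
      · exact hp1
      · exact hp2
      · exact hF)
  have hξ1 : lnL s ξ ∉ U := hξ 0
  have hξ2 : n ⨯₃ ξ ≠ 0 := hξ 1
  have hξ3 : Fm ξ ≠ 0 := hξ 2
  -- choice of `η`
  set U3 := U ⊔ Submodule.span ℝ {lnL s ξ} with hU3
  have hU3fin : finrank ℝ U3 ≤ 3 := by
    have h1 := Submodule.finrank_add_le_finrank_add_finrank U (Submodule.span ℝ {lnL s ξ})
    have h0 : lnL s ξ ≠ 0 := by
      intro h; apply hξ1; rw [h]; exact U.zero_mem
    rw [finrank_span_singleton h0, hUfin] at h1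
    exact h1
  have hq : U3.comap (lnL t) ≠ ⊤ := by
    intro h
    have h1 : LinearMap.range (lnL t) ≤ U3 := by
      rintro _ ⟨η, rfl⟩
      have : η ∈ U3.comap (lnL t) := by rw [h]; trivial
      exact this
    have h2 : LinearMap.range (lnL t) = U3 :=
      Submodule.eq_of_le_of_finrank_le h1 (by rw [finrank_range_lnL]; exact hU3fin)
    have h3 : S ∈ LinearMap.range (lnL t) := by
      rw [h2]; exact (le_sup_left : U ≤ U3) hSU
    obtain ⟨η, hη⟩ := h3
    apply hSt
    rw [← hη, ev_lnL]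
  have hn' : ξ ⨯₃ n ≠ 0 := by
    intro h
    apply hξ2
    rw [← cross_anticomm, h, neg_zero]
  obtain ⟨η, hη⟩ := exists_avoid ![U3.comap (lnL t), LinearMap.ker (dotL (ξ ⨯₃ n)),
    LinearMap.ker (dotL (Fm ξ))] (by
      intro i
      fin_cases i
      · exact hq
      · exact ker_dotL_ne _ hn'
      · exact ker_dotL_ne _ hξ3)
  have hη1 : lnL t η ∉ U3 := hη 0
  have hη2 : (ξ ⨯₃ n) ⬝ᵥ η ≠ 0 := hη 1
  have hη3 : Fm ξ ⬝ᵥ η ≠ 0 := hη 2
  -- the four vectors
  have hli2 : ∀ a b : ℝ, a • S₁ + b • S₂ = 0 → a = 0 ∧ b = 0 := by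
    intro a b hab
    have h1 := Fintype.linearIndependent_iff.mp hli ![a, b]
      (by simpa [Fin.sum_univ_two] using hab)
    exact ⟨h1 0, h1 1⟩
  have hU1 : S₁ ∈ U := Submodule.subset_span (by simp)
  have hU2 : S₂ ∈ U := Submodule.subset_span (by simp)
  have hli4 : ∀ a b c d : ℝ, a • S₁ + b • S₂ + c • lnL s ξ + d • lnL t η = 0 →
      a = 0 ∧ b = 0 ∧ c = 0 ∧ d = 0 := by
    intro a b c d h
    have hUU : a • S₁ + b • S₂ ∈ U := U.add_mem (U.smul_mem _ hU1) (U.smul_mem _ hU2)
    have hd : d = 0 := by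
      by_contra hd
      apply hη1
      have h1 : d • lnL t η ∈ U3 := by
        have h2 : d • lnL t η = -((a • S₁ + b • S₂) + c • lnL s ξ) := by
          rw [eq_neg_iff_add_eq_zero, ← h]; abel
        rw [h2]
        exact U3.neg_mem (U3.add_mem ((le_sup_left : U ≤ U3) hUU)
          (U3.smul_mem _ ((le_sup_right : _ ≤ U3) (Submodule.mem_span_singleton_self _))))
      have h3 := U3.smul_mem d⁻¹ h1
      rwa [smul_smul, inv_mul_cancel₀ hd, one_smul] at h3
    rw [hd, zero_smul, add_zero] at h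
    have hc : c = 0 := by
      by_contra hc
      apply hξ1
      have h1 : c • lnL s ξ ∈ U := by
        have h2 : c • lnL s ξ = -(a • S₁ + b • S₂) := by
          rw [eq_neg_iff_add_eq_zero, ← h]; abel
        rw [h2]
        exact U.neg_mem hUU
      have h3 := U.smul_mem c⁻¹ h1
      rwa [smul_smul, inv_mul_cancel₀ hc, one_smul] at h3
    rw [hc, zero_smul, add_zero] at h
    obtain ⟨ha, hb⟩ := hli2 a b h
    exact ⟨ha, hb, hc, hd⟩
  have hliF : LinearIndependent ℝ ![S₁, S₂, lnL s ξ, lnL t η] := by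
    rw [Fintype.linearIndependent_iff]
    intro g hg
    rw [Fin.sum_univ_four] at hg
    obtain ⟨h1, h2, h3, h4⟩ := hli4 (g 0) (g 1) (g 2) (g 3) (by simpa using hg)
    intro i
    fin_cases i
    · exact h1
    · exact h2
    · exact h3
    · exact h4
  set N := Submodule.span ℝ (Set.range ![S₁, S₂, lnL s ξ, lnL t η]) with hN
  have hNfin : finrank ℝ N = 4 := by rw [hN, finrank_span_eq_card hliF]; simp
  have hN1 : S₁ ∈ N := Submodule.subset_span ⟨0, rfl⟩
  have hN2 : S₂ ∈ N := Submodule.subset_span ⟨1, rfl⟩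
  have hN3 : lnL s ξ ∈ N := Submodule.subset_span ⟨2, rfl⟩
  have hN4 : lnL t η ∈ N := Submodule.subset_span ⟨3, rfl⟩
  have hUN : U ≤ N := by
    rw [hU, Submodule.span_le]
    intro T hT
    rcases hT with h | h
    · rw [h]; exact hN1
    · rw [Set.mem_singleton_iff] at h
      rw [h]; exact hN2
  have hself : ∀ o ζ, kl (lnL o ζ) (lnL o ζ) = 0 := by
    intro o ζ; rw [kl_lnL, ev_lnL, zero_dotProduct]
  have hg : kl (lnL s ξ) (lnL t η) = (ξ ⨯₃ n) ⬝ᵥ η := by
    rw [kl_lnL]
    simp only [lnL_apply, ev, cross_eq, dot3, hn, Pi.add_apply, Pi.sub_apply, Matrix.cons_val]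
    ring
  obtain ⟨W, R, hW, hR, hWW, hRW⟩ := exists_wrench N hNfin S (lnL s ξ) (lnL t η) (hUN hSU) hN3 hN4
    (hself _ _) (hself _ _) (by rw [hg]; exact hη2) (by
      have h1 : 2 * (kl S (lnL s ξ) * kl S (lnL t η)) - kl S S * kl (lnL s ξ) (lnL t η) =
          Fm ξ ⬝ᵥ η := by
        rw [hg, kl_lnL, kl_lnL, hFm, add_dotProduct, smul_dotProduct, smul_dotProduct,
          smul_dotProduct, ← cross_anticomm, neg_dotProduct]
        simp only [smul_eq_mul]
        ring
      rw [h1]; exact hη3)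
  obtain ⟨x, ζ, hWx, hRx⟩ := exists_line W R hWW hRW
  have e3 : lin (s - ξ) s = lnL s ξ := by
    refine Prod.ext ?_ ?_
    · simp [lin, lnL_apply]
    · apply vec_ext <;> simp only [lin, lnL_apply, cross_eq, Pi.sub_apply, Matrix.cons_val] <;> ring
  have e4 : lin (t - η) t = lnL t η := by
    refine Prod.ext ?_ ?_
    · simp [lin, lnL_apply]
    · apply vec_ext <;> simp only [lin, lnL_apply, cross_eq, Pi.sub_apply, Matrix.cons_val] <;> ring
  have e5 : lin x (x + ζ) = lnL x ζ := by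
    refine Prod.ext ?_ ?_
    · simp [lin, lnL_apply]
    · apply vec_ext <;> simp only [lin, lnL_apply, cross_eq, Pi.add_apply, Matrix.cons_val] <;> ring
  refine ⟨s - ξ, t - η, x, x + ζ, ?_⟩
  rw [e3, e4, e5]
  apply gram_ne _ W hWW
  · rw [Fintype.linearIndependent_iff]
    intro g hg0
    rw [Fin.sum_univ_five] at hg0
    have hg1 : g 0 • S₁ + g 1 • S₂ + g 2 • lnL s ξ + g 3 • lnL t η + g 4 • lnL x ζ = 0 := by
      simpa using hg0
    have h4 : g 4 = 0 := by
      have h5 : kl R (g 0 • S₁ + g 1 • S₂ + g 2 • lnL s ξ + g 3 • lnL t η + g 4 • lnL x ζ) = 0 := by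
        rw [hg1]; simp
      simp only [kl_add', kl_smul'] at h5
      rw [hR _ hN1, hR _ hN2, hR _ hN3, hR _ hN4, kl_lnL] at h5
      simp only [mul_zero, zero_add] at h5
      exact (mul_eq_zero.mp h5).resolve_right hRx
    rw [h4, zero_smul, add_zero] at hg1
    obtain ⟨h0, h1, h2, h3⟩ := hli4 _ _ _ _ hg1
    intro i
    fin_cases i
    · exact h0
    · exact h1
    · exact h2
    · exact h3
    · exact h4
  · intro i
    fin_cases i
    · exact hW _ hN1
    · exact hW _ hN2
    · exact hW _ hN3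
    · exact hW _ hN4
    · show kl W (lnL x ζ) = 0
      rw [kl_lnL, hWx]

end Pool.Agent.H94.MG
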