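import Pool.Agent.H94.MG.CLQ

/-!
# Module LA4, and tools on cross products
-/

set_option autoImplicit false

noncomputable section

open Classical Module
open scoped Matrix

namespace Pool.Agent.H94.MG

open Pool.Agent.H52.MG

lemma cross_eq_zero_iff (a b : Vec) : a ⨯₃ b = 0 ↔
    a 1 * b 2 - a 2 * b 1 = 0 ∧ a 2 * b 0 - a 0 * b 2 = 0 ∧ a 0 * b 1 - a 1 * b 0 = 0 := by
  rw [vec_ext_iff, cross_eq]
  simp

/-- every nonzero vector has a nonzero cross product with some vector -/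
lemma exists_cross_ne (n : Vec) (hn : n ≠ 0) : ∃ d : Vec, d ⨯₃ n ≠ 0 := by
  by_contra h
  push Not at h
  apply hn
  have h0 := (cross_eq_zero_iff _ _).mp (h ![1, 0, 0])
  have h1 := (cross_eq_zero_iff _ _).mp (h ![0, 1, 0])
  simp at h0 h1
  apply vec_ext
  · exact h1.2
  · exact h0.2
  · exact h0.1

lemma exists_dot_ne (n : Vec) (hn : n ≠ 0) : ∃ d : Vec, n ⬝ᵥ d ≠ 0 :=
  ⟨n, fun h => hn (dotProduct_self_eq_zero.mp h)⟩

lemma self_dot_ne (n : Vec) (hn : n ≠ 0) : n ⬝ᵥ n ≠ 0 :=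
  fun h => hn (dotProduct_self_eq_zero.mp h)

/-- a one dimensional or zero subspace -/
lemma exists_gen_one {M : Type} [AddCommGroup M] [Module ℝ M] [Module.Finite ℝ M]
    (U : Submodule ℝ M) (h : finrank ℝ U ≤ 1) :
    ∃ S₀ ∈ U, ∀ S ∈ U, ∃ r : ℝ, S = r • S₀ := by
  obtain ⟨v, hv⟩ := finrank_le_one_iff.mp h
  refine ⟨v, v.2, fun S hS => ?_⟩
  obtain ⟨r, hr⟩ := hv ⟨S, hS⟩
  exact ⟨r, by rw [← Submodule.coe_smul, hr]⟩

/-- the vectors `d × n` fill the plane orthogonal to `n` -/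
lemma exists_cross_nonparallel (n v : Vec) (hn : n ≠ 0) (hv : v ≠ 0) :
    ∃ d : Vec, v ⨯₃ (d ⨯₃ n) ≠ 0 := by
  by_cases h : v ⬝ᵥ n = 0
  · refine ⟨v, ?_⟩
    rw [cross_cross_eq, h, zero_smul, zero_sub]
    intro h0
    have := neg_eq_zero.mp h0
    rcases smul_eq_zero.mp this with h1 | h1
    · exact self_dot_ne v hv h1
    · exact hn h1
  · obtain ⟨d, hd⟩ := exists_cross_ne n hn
    refine ⟨d, ?_⟩
    rw [cross_cross_eq]
    intro h0
    have h1 : (v ⬝ᵥ n) • (d ⨯₃ n) = 0 := by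
      have h2 : (v ⬝ᵥ n) • (d ⨯₃ n) = ((v ⬝ᵥ n) • d - (v ⬝ᵥ d) • n) ⨯₃ n := by
        apply vec_ext <;> simp only [cross_eq, dot3, Pi.sub_apply, Pi.smul_apply, smul_eq_mul,
          Matrix.cons_val] <;> ring
      rw [h2, h0]; simp
    rcases smul_eq_zero.mp h1 with h2 | h2
    · exact h h2
    · exact hd h2

/-- Module LA4. -/
theorem la4 : T_LA4 := by
  intro U u w hU huw hinj
  obtain ⟨S₀, hS₀, hgen⟩ := exists_gen_one U hU
  have hn : u - w ≠ 0 := sub_ne_zero.mpr huw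
  by_cases h0 : S₀ = 0
  · obtain ⟨d, hd⟩ := exists_cross_ne (u - w) hn
    refine ⟨w - d, ?_, ?_⟩
    · intro h
      have : d = 0 := by
        have := sub_eq_self.mp h
        exact this
      apply hd; rw [this]; simp
    · intro S hS r h
      obtain ⟨c, hc⟩ := hgen S hS
      have hS0 : S = 0 := by rw [hc, h0, smul_zero]
      refine ⟨hS0, ?_⟩
      rw [hS0, ev_zero, ev_lin] at h
      have h1 : w - (w - d) = d := by abel
      rw [h1] at h
      rcases smul_eq_zero.mp h.symm with h2 | h2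
      · exact h2
      · exact absurd h2 hd
  · have hv : ev S₀ u ≠ 0 := fun h => h0 (hinj S₀ hS₀ h)
    obtain ⟨d, hd⟩ := exists_cross_nonparallel (u - w) (ev S₀ u) hn hv
    refine ⟨w - d, ?_, ?_⟩
    · intro h
      have : d = 0 := sub_eq_self.mp h
      apply hd; rw [this]; simp
    · intro S hS r h
      obtain ⟨c, hc⟩ := hgen S hS
      rw [hc, ev_smul, ev_lin] at h
      have h1 : w - (w - d) = d := by abel
      rw [h1] at h
      have h2 : c • (ev S₀ u ⨯₃ (d ⨯₃ (u - w))) = 0 := by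
        have h3 : c • (ev S₀ u ⨯₃ (d ⨯₃ (u - w))) = (c • ev S₀ u) ⨯₃ (d ⨯₃ (u - w)) := by
          rw [map_smul, LinearMap.smul_apply]
        rw [h3, h, map_smul, LinearMap.smul_apply, cross_self, smul_zero]
      have hc0 : c = 0 := by
        rcases smul_eq_zero.mp h2 with h4 | h4
        · exact h4
        · exact absurd h4 hd
      refine ⟨by rw [hc, hc0, zero_smul], ?_⟩
      rw [hc0, zero_smul] at h
      rcases smul_eq_zero.mp h.symm with h5 | h5
      · exact h5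
      · exfalso; apply hd; rw [h5]; simp

end Pool.Agent.H94.MG
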