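import Pool.Agent.H94.MG.CLQ

/-!
# Module LA5: positions of two hinge points
-/

set_option autoImplicit false

noncomputable section

open Classical Module
open scoped Matrix

namespace Pool.Agent.H94.MG

open Pool.Agent.H52.MG

/-- linear functionals on screws are given by the Klein form -/
lemma exists_kl_repr (f : Scr →ₗ[ℝ] ℝ) : ∃ R : Scr, ∀ T : Scr, f T = kl R T := by
  refine ⟨((fun i => f (0, Pi.single i 1)), (fun i => f (Pi.single i 1, 0))), fun T => ?_⟩
  have h : T = (T.1 0 • ((Pi.single 0 1 : Vec), (0 : Vec)) + T.1 1 • ((Pi.single 1 1 : Vec), (0 : Vec))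
      + T.1 2 • ((Pi.single 2 1 : Vec), (0 : Vec))) + (T.2 0 • ((0 : Vec), (Pi.single 0 1 : Vec))
      + T.2 1 • ((0 : Vec), (Pi.single 1 1 : Vec)) + T.2 2 • ((0 : Vec), (Pi.single 2 1 : Vec))) := by
    refine Prod.ext ?_ ?_
    · funext i
      fin_cases i <;> simp
    · funext i
      fin_cases i <;> simp
  conv_lhs => rw [h]
  simp only [map_add, map_smul, smul_eq_mul, kl, dot3]
  ring

lemma exists_kl_of_ne_top (W : Submodule ℝ Scr) (hW : W ≠ ⊤) :
    ∃ R : Scr, R ≠ 0 ∧ ∀ T ∈ W, kl R T = 0 := by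
  obtain ⟨f, hf, hWf⟩ := Submodule.exists_le_ker_of_lt_top W (lt_top_iff_ne_top.mpr hW)
  obtain ⟨R, hR⟩ := exists_kl_repr f
  refine ⟨R, ?_, fun T hT => ?_⟩
  · rintro rfl
    apply hf
    apply LinearMap.ext
    intro T
    rw [hR]; simp
  · rw [← hR]; exact hWf hT

/-- `kl R (δ, o × δ) = ev R o · δ` -/
lemma kl_line (R : Scr) (o δ : Vec) : kl R (δ, o ⨯₃ δ) = ev R o ⬝ᵥ δ := by
  simp only [kl, ev, dot3, cross_eq, Pi.add_apply, Matrix.cons_val]; ring

/-- a line through one of three non collinear points outside a proper subspace -/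
lemma exists_line_not_mem (W : Submodule ℝ Scr) (hW : W ≠ ⊤) (s a t : Vec)
    (h : (a - s) ⨯₃ (t - s) ≠ 0) : ∃ δ : Vec, (δ, a ⨯₃ δ) ∉ W ∨ (δ, t ⨯₃ δ) ∉ W ∨ (δ, s ⨯₃ δ) ∉ W := by
  by_contra hc
  push Not at hc
  obtain ⟨R, hR, hRW⟩ := exists_kl_of_ne_top W hW
  have key : ∀ o : Vec, (∀ δ, (δ, o ⨯₃ δ) ∈ W) → ev R o = 0 := by
    intro o ho
    have h1 := hRW _ (ho (ev R o))
    rw [kl_line] at h1
    exact dotProduct_self_eq_zero.mp h1
  exact hR (scr_three R s a t h (key s (fun δ => (hc δ).2.2)) (key a (fun δ => (hc δ).1))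
    (key t (fun δ => (hc δ).2.1)))

/-- independence modulo `U` is an open condition -/
lemma open_indep (U : Submodule ℝ Scr) (v₁ v₂ v₃ : ℝ → Scr) (c₁ : Continuous v₁)
    (c₂ : Continuous v₂) (c₃ : Continuous v₃)
    (h0 : ∀ r₁ r₂ r₃ : ℝ, r₁ • v₁ 0 + r₂ • v₂ 0 + r₃ • v₃ 0 ∈ U → r₁ = 0 ∧ r₂ = 0 ∧ r₃ = 0) :
    ∃ ε : ℝ, ε ≠ 0 ∧ ∀ r₁ r₂ r₃ : ℝ, r₁ • v₁ ε + r₂ • v₂ ε + r₃ • v₃ ε ∈ U →
      r₁ = 0 ∧ r₂ = 0 ∧ r₃ = 0 := by
  let B := finBasis ℝ (Scr ⧸ U)
  let π : Scr →ₗ[ℝ] (Fin (finrank ℝ (Scr ⧸ U)) → ℝ) := B.equivFun.toLinearMap.comp U.mkQ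
  have hπ : ∀ T, π T = 0 ↔ T ∈ U := by
    intro T
    simp only [π, LinearMap.comp_apply, LinearEquiv.coe_coe, LinearEquiv.map_eq_zero_iff]
    rw [Submodule.mkQ_apply, Submodule.Quotient.mk_eq_zero]
  have hπc : Continuous π := LinearMap.continuous_of_finiteDimensional π
  let f : ℝ → Fin 3 → (Fin (finrank ℝ (Scr ⧸ U)) → ℝ) := fun ε => ![π (v₁ ε), π (v₂ ε), π (v₃ ε)]
  have hf : Continuous f := by
    apply continuous_pi
    intro i
    fin_cases i
    · exact hπc.comp c₁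
    · exact hπc.comp c₂
    · exact hπc.comp c₃
  have hli : ∀ ε, LinearIndependent ℝ (f ε) ↔ ∀ r₁ r₂ r₃ : ℝ,
      r₁ • v₁ ε + r₂ • v₂ ε + r₃ • v₃ ε ∈ U → r₁ = 0 ∧ r₂ = 0 ∧ r₃ = 0 := by
    intro ε
    rw [Fintype.linearIndependent_iff]
    constructor
    · intro h r₁ r₂ r₃ hr
      have h1 := h ![r₁, r₂, r₃] (by
        rw [← hπ] at hr
        rw [Fin.sum_univ_three]
        simp only [f]
        rw [map_add, map_add, map_smul, map_smul, map_smul] at hr
        simpa using hr)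
      exact ⟨h1 0, h1 1, h1 2⟩
    · intro h g hg
      rw [Fin.sum_univ_three] at hg
      have h1 := h (g 0) (g 1) (g 2) (by
        rw [← hπ, map_add, map_add, map_smul, map_smul, map_smul]
        simpa [f] using hg)
      intro i
      fin_cases i
      · exact h1.1
      · exact h1.2.1
      · exact h1.2.2
  have hopen : IsOpen (f ⁻¹' {g | LinearIndependent ℝ g}) :=
    (isOpen_setOfPred_linearIndependent).preimage hf
  have hmem : (0 : ℝ) ∈ f ⁻¹' {g | LinearIndependent ℝ g} := (hli 0).mpr h0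
  obtain ⟨δ, hδ, hball⟩ := Metric.isOpen_iff.mp hopen 0 hmem
  have hδ' : (0 : ℝ) < δ := hδ
  refine ⟨δ / 2, by positivity, ?_⟩
  apply (hli (δ / 2)).mp
  apply hball
  rw [Metric.mem_ball, Real.dist_eq, sub_zero, abs_of_pos (by linarith)]
  linarith

/-- Module LA5. -/
theorem la5 : T_LA5 := by
  intro U s a t hU hn hind
  set W : Submodule ℝ Scr := U ⊔ Submodule.span ℝ {lin s a, lin a t} with hWdef
  have hW : W ≠ ⊤ := by
    intro h
    have h1 : finrank ℝ W = 6 := by rw [h, finrank_top, finrank_scr]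
    have h2 : finrank ℝ (Submodule.span ℝ {lin s a, lin a t} : Submodule ℝ Scr) ≤ 2 := by
      have h3 := finrank_span_finset_le_card (R := ℝ) ({lin s a, lin a t} : Finset Scr)
      rw [Finset.coe_pair] at h3
      exact h3.trans Finset.card_le_two
    have h4 := Submodule.finrank_add_le_finrank_add_finrank U
      (Submodule.span ℝ {lin s a, lin a t})
    rw [← hWdef, h1] at h4
    omega
  have hUW : U ≤ W := le_sup_left
  have hsa : lin s a ∈ W := le_sup_right (a := U) (Submodule.subset_span (by simp))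
  have hat : lin a t ∈ W := le_sup_right (a := U) (Submodule.subset_span (by simp))
  have key : ∀ L : Scr, L ∉ W → ∀ r₁ r₂ r₃ : ℝ, r₁ • lin s a + r₂ • lin a t + r₃ • L ∈ U →
      r₁ = 0 ∧ r₂ = 0 ∧ r₃ = 0 := by
    intro L hL r₁ r₂ r₃ h
    have h3 : r₃ = 0 := by
      by_contra h3
      apply hL
      have h4 : r₃ • L ∈ W := by
        have h5 : r₃ • L = (r₁ • lin s a + r₂ • lin a t + r₃ • L) -
          (r₁ • lin s a + r₂ • lin a t) := by abel
        rw [h5]
        exact W.sub_mem (hUW h) (W.add_mem (W.smul_mem _ hsa) (W.smul_mem _ hat))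
      have h6 := W.smul_mem r₃⁻¹ h4
      rwa [smul_smul, inv_mul_cancel₀ h3, one_smul] at h6
    rw [h3, zero_smul, add_zero] at h
    obtain ⟨h1, h2⟩ := hind _ _ h
    exact ⟨h1, h2, h3⟩
  obtain ⟨δ, hδ⟩ := exists_line_not_mem W hW s a t hn
  rcases hδ with hL | hL | hL
  · obtain ⟨ε, hε, h⟩ := open_indep U (fun _ => lin s a) (fun _ => (δ, a ⨯₃ δ))
      (fun ε => lin a t + ε • ((-δ, δ ⨯₃ t) : Scr)) continuous_const continuous_const
      (by fun_prop)
      (by
        intro r₁ r₂ r₃ hr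
        simp only [zero_smul, add_zero] at hr
        have := key _ hL r₁ r₃ r₂ (by rwa [add_right_comm] at hr)
        exact ⟨this.1, this.2.2, this.2.1⟩)
    refine ⟨a, a + ε • δ, fun r₁ r₂ r₃ hr => ?_⟩
    have e1 : lin a (a + ε • δ) = ε • ((δ, a ⨯₃ δ) : Scr) := by
      refine Prod.ext ?_ ?_
      · simp [lin]
      · simp [lin]
    have e2 : lin (a + ε • δ) t = lin a t + ε • ((-δ, δ ⨯₃ t) : Scr) := by
      refine Prod.ext ?_ ?_
      · simp only [lin, Prod.fst_add, Prod.smul_fst]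
        module
      · simp [lin]
    rw [e1, e2, smul_smul] at hr
    obtain ⟨h1, h2, h3⟩ := h r₁ (r₂ * ε) r₃ hr
    exact ⟨h1, (mul_eq_zero.mp h2).resolve_right hε, h3⟩
  · obtain ⟨ε, hε, h⟩ := open_indep U (fun _ => lin s a)
      (fun ε => lin a t + ε • ((δ, a ⨯₃ δ) : Scr)) (fun _ => (δ, t ⨯₃ δ)) continuous_const
      (by fun_prop) continuous_const
      (by
        intro r₁ r₂ r₃ hr
        simp only [zero_smul, add_zero] at hr
        exact key _ hL r₁ r₂ r₃ hr)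
    refine ⟨a, t + ε • δ, fun r₁ r₂ r₃ hr => ?_⟩
    have e1 : lin a (t + ε • δ) = lin a t + ε • ((δ, a ⨯₃ δ) : Scr) := by
      refine Prod.ext ?_ ?_
      · simp only [lin, Prod.fst_add, Prod.smul_fst]
        module
      · simp [lin]
    have e2 : lin (t + ε • δ) t = (-ε) • ((δ, t ⨯₃ δ) : Scr) := by
      refine Prod.ext ?_ ?_
      · simp only [lin, Prod.smul_fst]
        module
      · simp only [lin, Prod.smul_snd]
        apply vec_ext <;> simp only [cross_eq, Pi.add_apply, Pi.smul_apply, smul_eq_mul,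
          Matrix.cons_val] <;> ring
    rw [e1, e2, smul_smul] at hr
    obtain ⟨h1, h2, h3⟩ := h r₁ r₂ (r₃ * -ε) hr
    exact ⟨h1, h2, (mul_eq_zero.mp h3).resolve_right (neg_ne_zero.mpr hε)⟩
  · obtain ⟨ε, hε, h⟩ := open_indep U (fun _ => (δ, s ⨯₃ δ))
      (fun ε => lin s a + ε • ((-δ, δ ⨯₃ a) : Scr)) (fun _ => lin a t) continuous_const
      (by fun_prop) continuous_const
      (by
        intro r₁ r₂ r₃ hr
        simp only [zero_smul, add_zero] at hr
        have := key _ hL r₂ r₃ r₁ (by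
          have e : r₂ • lin s a + r₃ • lin a t + r₁ • ((δ, s ⨯₃ δ) : Scr) =
            r₁ • ((δ, s ⨯₃ δ) : Scr) + r₂ • lin s a + r₃ • lin a t := by abel
          rw [e]; exact hr)
        exact ⟨this.2.2, this.1, this.2.1⟩)
    refine ⟨s + ε • δ, a, fun r₁ r₂ r₃ hr => ?_⟩
    have e1 : lin s (s + ε • δ) = ε • ((δ, s ⨯₃ δ) : Scr) := by
      refine Prod.ext ?_ ?_
      · simp [lin]
      · simp [lin]
    have e2 : lin (s + ε • δ) a = lin s a + ε • ((-δ, δ ⨯₃ a) : Scr) := by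
      refine Prod.ext ?_ ?_
      · simp only [lin, Prod.fst_add, Prod.smul_fst]
        module
      · simp [lin]
    rw [e1, e2, smul_smul] at hr
    obtain ⟨h1, h2, h3⟩ := h (r₁ * ε) r₂ r₃ hr
    exact ⟨(mul_eq_zero.mp h1).resolve_right hε, h2, h3⟩

end Pool.Agent.H94.MG
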