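import Pool.Agent.H52.MG.Basic
import Pool.Agent.H52.MG.Targets

/-!
# Module MG5: two adjacent classes of degree two
-/

set_option autoImplicit false

noncomputable section

open Classical Module
open scoped Matrix

namespace Pool.Agent.H94.MG

open Pool.Agent.H52.MG

section
variable {V : Type} [Fintype V]

/-- the dimension of relative motions -/
lemma finrank_Urel_le (G : SimpleGraph V) (c : V → V) (p : V → Vec) (s t : V) (k : ℕ)
    (h : finrank ℝ (Mot G c p) ≤ k + 6) : finrank ℝ (Urel G c p s t) ≤ k := by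
  have : Nonempty V := ⟨s⟩
  let f : Mot G c p →ₗ[ℝ] Scr := (dif s t).comp (Mot G c p).subtype
  have h1 : LinearMap.range f = Urel G c p s t := by
    simp only [f, Urel, LinearMap.range_comp, Submodule.range_subtype]
  have h2 := LinearMap.finrank_range_add_finrank_ker f
  rw [h1] at h2
  have h3 : 6 ≤ finrank ℝ (LinearMap.ker f) := by
    let g : Scr →ₗ[ℝ] Mot G c p :=
      LinearMap.codRestrict (Mot G c p) (constMap V) (fun T => const_mem_Mot G c p T)
    have hg : Function.Injective g := by
      intro a b hab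
      have := congrArg Subtype.val hab
      exact congrFun this s
    have h4 : LinearMap.range g ≤ LinearMap.ker f := by
      rintro _ ⟨T, rfl⟩
      rw [LinearMap.mem_ker]
      simp [f, g, dif, constMap]
    have h5 := Submodule.finrank_mono h4
    rw [LinearMap.finrank_range_of_inj hg, finrank_scr] at h5
    exact h5
  omega

variable {G : SimpleGraph V} {c : V → V} {s x x' y y' t : V}

lemma GRc_adj {u w : V} : (GRc G c x y).Adj u w ↔
    G.Adj u w ∧ ¬ (c u = c x ∨ c u = c y) ∧ ¬ (c w = c x ∨ c w = c y) := Iff.rfl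

lemma cRc_in {v : V} (h : c v = c x ∨ c v = c y) : cRc c s x y v = c s := by
  simp only [cRc, if_pos h]

lemma cRc_out {v : V} (h : ¬ (c v = c x ∨ c v = c y)) : cRc c s x y v = c v := by
  simp only [cRc, if_neg h]

/-- step A -/
lemma mg5_stepA (hch : Chain G c s x x' y y' t) {p : V → Vec} (hsx : p s ≠ p x')
    (hxt : p x' ≠ p t)
    (h6 : finrank ℝ (Mot (addE (addE (GRc G c x y) x' s) x' t) (mrg c s y) p) ≤ 6)
    {S : V → Scr} (hS : S ∈ Mot (GRc G c x y) (cRc c s x y) p) (r₁ r₂ : ℝ)
    (h : S s - S t = r₁ • lin (p s) (p x') + r₂ • lin (p x') (p t)) :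
    r₁ = 0 ∧ r₂ = 0 ∧ ∀ u w, S u = S w := by
  obtain ⟨hS1, hS2⟩ := mem_Mot.mp hS
  have hs : ¬ (c s = c x ∨ c s = c y) := by
    rintro (h | h)
    · exact hch.sx h
    · exact hch.sy h
  have ht : ¬ (c t = c x ∨ c t = c y) := by
    rintro (h | h)
    · exact hch.tx h
    · exact hch.ty h
  have hSin : ∀ v, (c v = c x ∨ c v = c y) → S v = S s := by
    intro v hv
    apply hS1
    rw [cRc_in hv, cRc_out hs]
  set S1 : V → Scr := fun v => if c v = c x then S s - r₁ • lin (p s) (p x') else S v with hS1def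
  have hX : ∀ v, c v = c x → S1 v = S s - r₁ • lin (p s) (p x') := by
    intro v hv; simp [hS1def, hv]
  have hnX : ∀ v, c v ≠ c x → S1 v = S v := by
    intro v hv; simp [hS1def, hv]
  have hx' : S1 x' = S s - r₁ • lin (p s) (p x') := hX x' hch.cx
  have hss : S1 s = S s := hnX s hch.sx
  have htt : S1 t = S t := hnX t hch.tx
  have hmem : S1 ∈ Mot (addE (addE (GRc G c x y) x' s) x' t) (mrg c s y) p := by
    rw [mem_Mot]
    constructor
    · intro u w huw
      simp only [mrg] at huw
      by_cases hu : c u = c x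
      · have hu' : c u ≠ c y := by rw [hu]; exact hch.xy
        rw [if_neg hu'] at huw
        by_cases hw : c w = c y
        · rw [if_pos hw, hu] at huw
          exact absurd huw.symm hch.sx
        · rw [if_neg hw] at huw
          rw [hX u hu, hX w (by rw [← huw, hu])]
      · by_cases hw : c w = c x
        · have hw' : c w ≠ c y := by rw [hw]; exact hch.xy
          rw [if_neg hw'] at huw
          by_cases hu2 : c u = c y
          · rw [if_pos hu2, hw] at huw
            exact absurd huw hch.sx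
          · rw [if_neg hu2] at huw
            exact absurd (huw.trans hw) hu
        · rw [hnX u hu, hnX w hw]
          apply hS1
          by_cases hu2 : c u = c y
          · rw [cRc_in (Or.inr hu2)]
            rw [if_pos hu2] at huw
            by_cases hw2 : c w = c y
            · rw [cRc_in (Or.inr hw2)]
            · rw [if_neg hw2] at huw
              rw [cRc_out (by push Not; exact ⟨hw, hw2⟩)]
              exact huw
          · rw [cRc_out (by push Not; exact ⟨hu, hu2⟩)]
            rw [if_neg hu2] at huw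
            by_cases hw2 : c w = c y
            · rw [cRc_in (Or.inr hw2)]
              rw [if_pos hw2] at huw
              exact huw
            · rw [if_neg hw2] at huw
              rw [cRc_out (by push Not; exact ⟨hw, hw2⟩)]
              exact huw
    · have e1 : ev (S1 x') (p s) = ev (S1 s) (p s) := by
        rw [hx', hss, ev_sub, ev_smul, ev_lin_left, smul_zero, sub_zero]
      have e2 : ev (S1 x') (p x') = ev (S1 s) (p x') := by
        rw [hx', hss, ev_sub, ev_smul, ev_lin_right, smul_zero, sub_zero]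
      have hx't : S1 x' = S t + r₂ • lin (p x') (p t) := by
        rw [hx']
        have h7 : S s = S t + (r₁ • lin (p s) (p x') + r₂ • lin (p x') (p t)) := by
          rw [← h]; abel
        rw [h7]; abel
      have e3 : ev (S1 x') (p x') = ev (S1 t) (p x') := by
        rw [hx't, htt, ev_add, ev_smul, ev_lin_left, smul_zero, add_zero]
      have e4 : ev (S1 x') (p t) = ev (S1 t) (p t) := by
        rw [hx't, htt, ev_add, ev_smul, ev_lin_right, smul_zero, add_zero]
      intro u w huw
      rcases huw with (huw | ⟨_, ⟨rfl, rfl⟩ | ⟨rfl, rfl⟩⟩) | ⟨_, ⟨rfl, rfl⟩ | ⟨rfl, rfl⟩⟩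
      · obtain ⟨_, h8, h9⟩ := GRc_adj.mp huw
        rw [hnX u (fun k => h8 (Or.inl k)), hnX w (fun k => h9 (Or.inl k))]
        exact hS2 u w huw
      · exact e2
      · exact e1.symm
      · exact e3
      · exact e4.symm
  have hconst := Mot_const h6 hmem
  have hr1 : r₁ = 0 := by
    have h10 := hconst x' s
    rw [hx', hss] at h10
    have h11 : r₁ • lin (p s) (p x') = 0 := by
      have := sub_eq_self.mp h10
      exact this
    rcases smul_eq_zero.mp h11 with h12 | h12
    · exact h12
    · exact absurd h12 (lin_ne_zero _ _ hsx)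
  have hr2 : r₂ = 0 := by
    have h10 := hconst s t
    rw [hss, htt] at h10
    rw [h10, sub_self, hr1, zero_smul, zero_add] at h
    rcases smul_eq_zero.mp h.symm with h12 | h12
    · exact h12
    · exact absurd h12 (lin_ne_zero _ _ hxt)
  refine ⟨hr1, hr2, ?_⟩
  have hall : ∀ u, S u = S s := by
    intro u
    by_cases hu : c u = c x
    · exact hSin u (Or.inl hu)
    · rw [← hnX u hu, ← hss]
      exact hconst u s
  intro u w
  rw [hall u, hall w]

end

/-- Module MG5. -/
theorem mg5 (hLA5 : T_LA5) (hGS : T_GS) (hGP : T_GP) : T_MG5 := by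
  intro V _ G c p s x x' y y' t hp hch hst h9 h6
  obtain ⟨g1, g2, -⟩ := hGP V p hp
  have hsx' : s ≠ x' := by rintro rfl; exact hch.sx hch.cx
  have hxt' : x' ≠ t := by rintro rfl; exact hch.tx hch.cx
  have hstne : s ≠ t := by rintro rfl; exact hst rfl
  have psx : p s ≠ p x' := g1 _ _ hsx'
  have pxt : p x' ≠ p t := g1 _ _ hxt'
  set U := Urel (GRc G c x y) (cRc c s x y) p s t with hU
  have hUfin : finrank ℝ U ≤ 3 := finrank_Urel_le _ _ _ _ _ 3 h9
  have hs : ¬ (c s = c x ∨ c s = c y) := by
    rintro (h | h)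
    · exact hch.sx h
    · exact hch.sy h
  have ht : ¬ (c t = c x ∨ c t = c y) := by
    rintro (h | h)
    · exact hch.tx h
    · exact hch.ty h
  obtain ⟨α, ν, hαν⟩ := hLA5 U (p s) (p x') (p t) hUfin (g2 s x' t hsx' hstne hxt') (by
    intro r₁ r₂ hr
    obtain ⟨S, hS, hSe⟩ := mem_Urel.mp hr
    obtain ⟨h1, h2, -⟩ := mg5_stepA hch psx pxt h6 hS r₁ r₂ hSe
    exact ⟨h1, h2⟩)
  have hsα : p s ≠ α := by
    intro h
    have h1 := hαν 1 0 0 (by
      have : lin (p s) α = 0 := by
        rw [h]; refine Prod.ext ?_ ?_ <;> simp [lin]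
      rw [this]; simp)
    exact one_ne_zero h1.1
  have hανne : α ≠ ν := by
    intro h
    have h1 := hαν 0 1 0 (by
      have : lin α ν = 0 := by
        rw [h]; refine Prod.ext ?_ ?_ <;> simp [lin]
      rw [this]; simp)
    exact one_ne_zero h1.2.1
  have hνt : ν ≠ p t := by
    intro h
    have h1 := hαν 0 0 1 (by
      have : lin ν (p t) = 0 := by
        rw [h]; refine Prod.ext ?_ ?_ <;> simp [lin]
      rw [this]; simp)
    exact one_ne_zero h1.2.2
  set p0 : V → Vec := fun v => if v = x ∨ v = x' then α else if v = y ∨ v = y' then ν else p v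
    with hp0
  have p0x : p0 x = α := by simp [hp0]
  have p0x' : p0 x' = α := by simp [hp0]
  have hyX : ∀ v, c v = c y → ¬ (v = x ∨ v = x') := by
    rintro v hv (rfl | rfl)
    · exact hch.xy hv
    · exact hch.xy (hch.cx.symm.trans hv)
  have p0y : p0 y = ν := by
    simp only [hp0]
    rw [if_neg (hyX y rfl)]; simp
  have p0y' : p0 y' = ν := by
    simp only [hp0]
    rw [if_neg (hyX y' hch.cy)]; simp
  have p0out : ∀ v, ¬ (c v = c x ∨ c v = c y) → p0 v = p v := by
    intro v hv
    simp only [hp0]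
    rw [if_neg, if_neg]
    · rintro (rfl | rfl)
      · exact hv (Or.inr rfl)
      · exact hv (Or.inr hch.cy)
    · rintro (rfl | rfl)
      · exact hv (Or.inl rfl)
      · exact hv (Or.inl hch.cx)
  have hle : finrank ℝ (Mot G c p) ≤ finrank ℝ (Mot G c p0) := hGS V _ _ _ p p0 hp
  refine hle.trans (finrank_le_six ?_)
  intro S hS
  obtain ⟨hS1, hS2⟩ := mem_Mot.mp hS
  -- the three hinges
  obtain ⟨r₁, hr₁⟩ : ∃ r : ℝ, S s - S x = r • lin (p s) α := by
    obtain ⟨r, hr⟩ := Mot_edge hS hch.e1.symm (by rw [p0out s hs, p0x]; exact hsα)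
    rw [p0out s hs, p0x] at hr
    exact ⟨r, hr⟩
  obtain ⟨r₂, hr₂⟩ : ∃ r : ℝ, S x - S y = r • lin α ν := by
    obtain ⟨r, hr⟩ := Mot_edge hS hch.e2 (by rw [p0x', p0y']; exact hανne)
    rw [p0x', p0y', hS1 x' x hch.cx, hS1 y' y hch.cy] at hr
    exact ⟨r, hr⟩
  obtain ⟨r₃, hr₃⟩ : ∃ r : ℝ, S y - S t = r • lin ν (p t) := by
    obtain ⟨r, hr⟩ := Mot_edge hS hch.e3 (by rw [p0y, p0out t ht]; exact hνt)
    rw [p0y, p0out t ht] at hr
    exact ⟨r, hr⟩
  set S' : V → Scr := fun v => if c v = c x ∨ c v = c y then S s else S v with hS'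
  have hin : ∀ v, (c v = c x ∨ c v = c y) → S' v = S s := by
    intro v hv; simp only [hS', if_pos hv]
  have hout : ∀ v, ¬ (c v = c x ∨ c v = c y) → S' v = S v := by
    intro v hv; simp only [hS', if_neg hv]
  have hS'mem : S' ∈ Mot (GRc G c x y) (cRc c s x y) p := by
    rw [mem_Mot]
    constructor
    · intro u w huw
      by_cases hu : c u = c x ∨ c u = c y
      · rw [cRc_in hu] at huw
        rw [hin u hu]
        by_cases hw : c w = c x ∨ c w = c y
        · rw [hin w hw]
        · rw [cRc_out hw] at huw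
          rw [hout w hw]
          exact hS1 s w huw
      · rw [cRc_out hu] at huw
        rw [hout u hu]
        by_cases hw : c w = c x ∨ c w = c y
        · rw [cRc_in hw] at huw
          rw [hin w hw]
          exact hS1 u s huw
        · rw [cRc_out hw] at huw
          rw [hout w hw]
          exact hS1 u w huw
    · intro u w huw
      obtain ⟨h1, h2, h3⟩ := GRc_adj.mp huw
      rw [hout u h2, hout w h3, ← p0out u h2]
      exact hS2 u w h1
  have hdiff : S' s - S' t = r₁ • lin (p s) α + r₂ • lin α ν + r₃ • lin ν (p t) := by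
    rw [hout s hs, hout t ht, ← hr₁, ← hr₂, ← hr₃]; abel
  obtain ⟨k1, k2, k3⟩ := hαν r₁ r₂ r₃ (by
    rw [← hdiff]
    exact mem_Urel.mpr ⟨S', hS'mem, rfl⟩)
  rw [k1, k2, k3, zero_smul, zero_smul, zero_smul, add_zero, add_zero] at hdiff
  obtain ⟨-, -, hS'const⟩ := mg5_stepA hch psx pxt h6 hS'mem 0 0 (by rw [hdiff]; simp)
  have hsx : S x = S s := by
    rw [k1, zero_smul] at hr₁
    exact (sub_eq_zero.mp hr₁).symm
  have hxy : S y = S s := by
    rw [k2, zero_smul] at hr₂
    rw [← sub_eq_zero.mp hr₂, hsx]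
  have hall : ∀ v, S v = S s := by
    intro v
    by_cases hv : c v = c x ∨ c v = c y
    · rcases hv with hv | hv
      · rw [hS1 v x hv, hsx]
      · rw [hS1 v y hv, hxy]
    · rw [← hout v hv, hS'const v s, hout s hs]
  intro u w
  rw [hall u, hall w]

end Pool.Agent.H94.MG
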