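import Pool.Agent.H52.MG.Targets
import Pool.Agent.H94.MG.LA3
import Pool.Agent.H94.MG.LA5

/-!
# Module LA3T: a wrench which is not a line, generic version
-/

set_option autoImplicit false

noncomputable section

open Classical Module
open scoped Matrix

namespace Pool.Agent.H94.MG

open Pool.Agent.H52.MG

/-- a nonvanishing Gram determinant gives a wrench which is not a line -/
lemma wrench_of_gram (v : Fin 5 → Scr) (hdet : (Matrix.of fun i j : Fin 5 => kl (v i) (v j)).det ≠ 0) :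
    ∃ W : Scr, (∀ i, kl W (v i) = 0) ∧ W.1 ⬝ᵥ W.2 ≠ 0 := by
  have hkl : ∀ (c : Fin 5 → ℝ) (T : Scr), kl (∑ i, c i • v i) T = ∑ i, c i * kl (v i) T := by
    intro c T
    rw [← KB_apply, map_sum, LinearMap.sum_apply]
    refine Finset.sum_congr rfl fun i _ => ?_
    rw [map_smul, LinearMap.smul_apply, KB_apply, smul_eq_mul]
  have hzero : ∀ c : Fin 5 → ℝ, (∀ j, kl (∑ i, c i • v i) (v j) = 0) → c = 0 := by
    intro c hc
    by_contra hc0
    apply hdet
    apply Matrix.exists_vecMul_eq_zero_iff.mp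
    refine ⟨c, hc0, ?_⟩
    funext j
    have := hc j
    rw [hkl] at this
    simpa [Matrix.vecMul, dotProduct] using this
  have hli : LinearIndependent ℝ v := by
    rw [Fintype.linearIndependent_iff]
    intro g hg i
    have := hzero g (fun j => by rw [hg]; simp)
    exact congrFun this i
  set N := Submodule.span ℝ (Set.range v) with hN
  have hNfin : finrank ℝ N = 5 := by rw [hN, finrank_span_eq_card hli]; simp
  have hNtop : N ≠ ⊤ := by
    intro h
    rw [h, finrank_top, finrank_scr] at hNfin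
    omega
  obtain ⟨W, hW0, hW⟩ := exists_kl_of_ne_top N hNtop
  have hWv : ∀ i, kl W (v i) = 0 := fun i => hW _ (Submodule.subset_span ⟨i, rfl⟩)
  refine ⟨W, hWv, ?_⟩
  intro h12
  have hWW : kl W W = 0 := by
    rw [kl, dotProduct_comm W.2, h12, add_zero]
  have hWN : W ∉ N := by
    intro hmem
    rw [hN, Submodule.mem_span_range_iff_exists_fun] at hmem
    obtain ⟨c, hc⟩ := hmem
    have := hzero c (fun j => by rw [hc]; exact hWv j)
    apply hW0
    rw [← hc, this]; simp
  have hli6 : LinearIndependent ℝ (Fin.cons W v : Fin 6 → Scr) := by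
    rw [linearIndependent_finCons]
    exact ⟨hli, hWN⟩
  have hspan : Submodule.span ℝ (Set.range (Fin.cons W v : Fin 6 → Scr)) = ⊤ := by
    apply hli6.span_eq_top_of_card_eq_finrank
    rw [finrank_scr]; simp
  apply hW0
  apply kl_nondeg
  intro T
  have hT : T ∈ Submodule.span ℝ (Set.range (Fin.cons W v : Fin 6 → Scr)) := by
    rw [hspan]; trivial
  have hle : Submodule.span ℝ (Set.range (Fin.cons W v : Fin 6 → Scr)) ≤
      LinearMap.ker (KB W) := by
    rw [Submodule.span_le]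
    rintro _ ⟨i, rfl⟩
    refine Fin.cases ?_ (fun j => ?_) i
    · exact hWW
    · exact hWv j
  exact hle hT

section poly

/-- Klein form over a ring -/
def klR {R : Type} [CommRing R] (S T : (Fin 3 → R) × (Fin 3 → R)) : R :=
  S.1 ⬝ᵥ T.2 + S.2 ⬝ᵥ T.1

/-- line over a ring -/
def linR {R : Type} [CommRing R] (x y : Fin 3 → R) : (Fin 3 → R) × (Fin 3 → R) :=
  (y - x, x ⨯₃ y)

variable {R : Type} [CommRing R] (φ : R →+* ℝ)

/-- image of a pair of vectors -/
def mp (S : (Fin 3 → R) × (Fin 3 → R)) : Scr := (fun i => φ (S.1 i), fun i => φ (S.2 i))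

lemma map_klR (S T : (Fin 3 → R) × (Fin 3 → R)) : φ (klR S T) = kl (mp φ S) (mp φ T) := by
  simp [klR, kl, mp, dotProduct, map_sum]

lemma mp_linR (x y : Fin 3 → R) : mp φ (linR x y) = lin (fun i => φ (x i)) (fun i => φ (y i)) := by
  refine Prod.ext ?_ ?_
  · funext i; simp [mp, linR, lin]
  · apply vec_ext <;> simp [mp, linR, lin, cross_apply]

end poly

/-- translations -/
def tr (i : Fin 3) : Scr := (0, Pi.single i 1)

lemma ev_tr (i : Fin 3) (z : Vec) : ev (tr i) z = Pi.single i 1 := by simp [ev, tr]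

lemma ev_tr_ne (i : Fin 3) (z : Vec) : ev (tr i) z ≠ 0 := by
  rw [ev_tr]
  intro h
  have := congrFun h i
  simp at this

lemma tr_entries (K : IntermediateField ℚ ℝ) (i j : Fin 3) : (tr i).1 j ∈ K ∧ (tr i).2 j ∈ K := by
  refine ⟨by simp [tr], ?_⟩
  simp only [tr, Pi.single_apply]
  split_ifs
  · exact K.one_mem
  · exact K.zero_mem

/-- enlarging to two screws -/
lemma enlarge (K : IntermediateField ℚ ℝ) (n : ℕ) (b : Fin n → Scr)
    (hb : ∀ i j, (b i).1 j ∈ K ∧ (b i).2 j ∈ K) (hli : LinearIndependent ℝ b) (hn : n ≤ 2)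
    (z₁ z₂ : Vec)
    (h2 : n = 2 → (∃ S ∈ Submodule.span ℝ (Set.range b), ev S z₁ ≠ 0) ∧
      (∃ S ∈ Submodule.span ℝ (Set.range b), ev S z₂ ≠ 0)) :
    ∃ S₁ S₂ : Scr, (∀ j, S₁.1 j ∈ K ∧ S₁.2 j ∈ K) ∧ (∀ j, S₂.1 j ∈ K ∧ S₂.2 j ∈ K) ∧
      LinearIndependent ℝ ![S₁, S₂] ∧
      Submodule.span ℝ (Set.range b) ≤ Submodule.span ℝ {S₁, S₂} ∧
      (∃ S ∈ Submodule.span ℝ {S₁, S₂}, ev S z₁ ≠ 0) ∧
      (∃ S ∈ Submodule.span ℝ {S₁, S₂}, ev S z₂ ≠ 0) := by
  have htr : LinearIndependent ℝ ![tr 0, tr 1] := by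
    rw [LinearIndependent.pair_iff]
    intro a c h
    have h1 := congrFun (congrArg Prod.snd h) 0
    have h2 := congrFun (congrArg Prod.snd h) 1
    simp [tr] at h1 h2
    exact ⟨h1, h2⟩
  rcases Nat.lt_or_ge n 1 with h0 | h0
  · have hn0 : n = 0 := by omega
    subst hn0
    refine ⟨tr 0, tr 1, tr_entries K 0, tr_entries K 1, htr, ?_, ?_, ?_⟩
    · rw [Submodule.span_le]
      rintro _ ⟨i, -⟩
      exact i.elim0
    · exact ⟨tr 0, Submodule.subset_span (by simp), ev_tr_ne _ _⟩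
    · exact ⟨tr 0, Submodule.subset_span (by simp), ev_tr_ne _ _⟩
  · rcases Nat.lt_or_ge n 2 with h1 | h1
    · have hn1 : n = 1 := by omega
      subst hn1
      have hb0 : b 0 ≠ 0 := hli.ne_zero 0
      obtain ⟨i, hi⟩ : ∃ i : Fin 3, LinearIndependent ℝ ![b 0, tr i] := by
        by_contra hc
        push Not at hc
        have key : ∀ i, ∃ r : ℝ, tr i = r • b 0 := by
          intro i
          have h3 := hc i
          rw [LinearIndependent.pair_iff' hb0] at h3
          push Not at h3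
          obtain ⟨r, hr⟩ := h3
          exact ⟨r, hr.symm⟩
        obtain ⟨r0, hr0⟩ := key 0
        obtain ⟨r1, hr1⟩ := key 1
        have h4 := LinearIndependent.pair_iff.mp htr r1 (-r0) (by
          rw [hr0, hr1, smul_smul, smul_smul, ← add_smul]
          have : r1 * r0 + -r0 * r1 = 0 := by ring
          rw [this, zero_smul])
        have h5 : tr 1 = 0 := by rw [hr1, h4.1, zero_smul]
        have h6 := ev_tr_ne 1 0
        rw [h5] at h6
        exact h6 (ev_zero _)
      refine ⟨b 0, tr i, hb 0, tr_entries K i, hi, ?_, ?_, ?_⟩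
      · rw [Submodule.span_le]
        rintro _ ⟨j, rfl⟩
        have : j = 0 := Subsingleton.elim _ _
        rw [this]
        exact Submodule.subset_span (by simp)
      · exact ⟨tr i, Submodule.subset_span (by simp), ev_tr_ne _ _⟩
      · exact ⟨tr i, Submodule.subset_span (by simp), ev_tr_ne _ _⟩
    · have hn2 : n = 2 := by omega
      subst hn2
      obtain ⟨k1, k2⟩ := h2 rfl
      have hspan : Submodule.span ℝ (Set.range b) = Submodule.span ℝ {b 0, b 1} := by
        congr 1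
        ext T
        simp [Fin.exists_fin_two, eq_comm]
      have hbb : b = ![b 0, b 1] := by
        funext i; fin_cases i <;> rfl
      rw [hspan] at k1 k2
      refine ⟨b 0, b 1, hb 0, hb 1, ?_, hspan.le, k1, k2⟩
      rw [← hbb]; exact hli

/-- Module LA3T. -/
theorem la3t (hLA3 : T_LA3) (hRG : T_RG) (hURK : T_URK) (hGP : T_GP) : T_LA3T := by
  intro V _ G c p s t x y x' y' hp hcross hs ht hxy hxx' hxy' hyx' hyy' hx'y' hst hfin h2
  set A : Set V := {v | v ≠ x ∧ v ≠ y ∧ v ≠ x' ∧ v ≠ y'} with hA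
  obtain ⟨n, b, hb, hli, hspan⟩ := hURK V G c p s t A (fun u w h1 h3 => hcross u w h1 h3)
  have hn : n = finrank ℝ (Urel G c p s t) := by
    rw [← hspan, finrank_span_eq_card hli]; simp
  obtain ⟨S₁, S₂, hS₁, hS₂, hli2, hle, k1, k2⟩ := enlarge (KA p A) n b hb hli (by omega) (p s) (p t)
    (by rw [hspan, hn]; exact h2)
  have hpst : p s ≠ p t := (hGP V p hp).1 s t hst
  obtain ⟨X, Y, X', Y', hdet⟩ := hLA3 S₁ S₂ (p s) (p t) hli2 hpst k1 k2
  -- the polynomial
  let R := MvPolynomial (V × Fin 3) (KA p A)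
  let Xv : V → Fin 3 → R := fun v i => MvPolynomial.X (v, i)
  let C1 : (Fin 3 → R) × (Fin 3 → R) :=
    (fun i => MvPolynomial.C ⟨S₁.1 i, (hS₁ i).1⟩, fun i => MvPolynomial.C ⟨S₁.2 i, (hS₁ i).2⟩)
  let C2 : (Fin 3 → R) × (Fin 3 → R) :=
    (fun i => MvPolynomial.C ⟨S₂.1 i, (hS₂ i).1⟩, fun i => MvPolynomial.C ⟨S₂.2 i, (hS₂ i).2⟩)
  let vR : Fin 5 → (Fin 3 → R) × (Fin 3 → R) :=
    ![C1, C2, linR (Xv x) (Xv s), linR (Xv y) (Xv t), linR (Xv x') (Xv y')]
  let P : R := (Matrix.of fun i j : Fin 5 => klR (vR i) (vR j)).det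
  have heval : ∀ p0 : V → Vec, MvPolynomial.aeval (fun z : V × Fin 3 => p0 z.1 z.2) P =
      (Matrix.of fun i j : Fin 5 =>
        kl ((![S₁, S₂, lin (p0 x) (p0 s), lin (p0 y) (p0 t), lin (p0 x') (p0 y')] : Fin 5 → Scr) i)
          ((![S₁, S₂, lin (p0 x) (p0 s), lin (p0 y) (p0 t), lin (p0 x') (p0 y')] :
            Fin 5 → Scr) j)).det := by
    intro p0
    set φ : R →+* ℝ := (MvPolynomial.aeval (fun z : V × Fin 3 => p0 z.1 z.2) :
      R →ₐ[KA p A] ℝ).toRingHom with hφ
    have h3 : MvPolynomial.aeval (fun z : V × Fin 3 => p0 z.1 z.2) P = φ P := rfl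
    have hXv : ∀ v, (fun i => φ (Xv v i)) = p0 v := by
      intro v; funext i
      exact MvPolynomial.aeval_X _ _
    have hv : ∀ i, mp φ (vR i) =
        (![S₁, S₂, lin (p0 x) (p0 s), lin (p0 y) (p0 t), lin (p0 x') (p0 y')] : Fin 5 → Scr) i := by
      intro i
      fin_cases i
      · refine Prod.ext ?_ ?_
        · funext j
          show φ (MvPolynomial.C ⟨S₁.1 j, (hS₁ j).1⟩) = S₁.1 j
          exact (MvPolynomial.aeval_C _ _).trans rfl
        · funext j
          show φ (MvPolynomial.C ⟨S₁.2 j, (hS₁ j).2⟩) = S₁.2 j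
          exact (MvPolynomial.aeval_C _ _).trans rfl
      · refine Prod.ext ?_ ?_
        · funext j
          show φ (MvPolynomial.C ⟨S₂.1 j, (hS₂ j).1⟩) = S₂.1 j
          exact (MvPolynomial.aeval_C _ _).trans rfl
        · funext j
          show φ (MvPolynomial.C ⟨S₂.2 j, (hS₂ j).2⟩) = S₂.2 j
          exact (MvPolynomial.aeval_C _ _).trans rfl
      · show mp φ (linR (Xv x) (Xv s)) = lin (p0 x) (p0 s)
        rw [mp_linR, hXv, hXv]
      · show mp φ (linR (Xv y) (Xv t)) = lin (p0 y) (p0 t)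
        rw [mp_linR, hXv, hXv]
      · show mp φ (linR (Xv x') (Xv y')) = lin (p0 x') (p0 y')
        rw [mp_linR, hXv, hXv]
    rw [h3, RingHom.map_det]
    congr 1
    ext i j
    rw [RingHom.mapMatrix_apply, Matrix.map_apply, Matrix.of_apply, Matrix.of_apply, map_klR,
      hv, hv]
  set p0 : V → Vec := fun v => if v = x then X else if v = y then Y else if v = x' then X'
    else if v = y' then Y' else p v with hp0
  have q1 : p0 x = X := by simp [hp0]
  have q2 : p0 y = Y := by simp [hp0, hxy.symm]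
  have q3 : p0 x' = X' := by simp [hp0, hxx'.symm, hyx'.symm]
  have q4 : p0 y' = Y' := by simp [hp0, hxy'.symm, hyy'.symm, hx'y'.symm]
  have q5 : ∀ v ∈ A, p0 v = p v := by
    rintro v ⟨h3, h4, h5, h6⟩
    simp [hp0, h3, h4, h5, h6]
  have hne := hRG V p A hp P p0 q5 (by
    rw [heval, q1, q2, q3, q4, q5 s hs, q5 t ht]
    exact hdet)
  rw [heval] at hne
  obtain ⟨W, hW, hW12⟩ := wrench_of_gram _ hne
  refine ⟨W, ?_, hW 2, hW 3, hW 4, hW12⟩
  intro S hS
  rw [← hspan] at hS
  have h3 : Submodule.span ℝ {S₁, S₂} ≤ LinearMap.ker (KB W) := by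
    rw [Submodule.span_le]
    rintro T (hT | hT)
    · rw [hT]; exact hW 0
    · rw [Set.mem_singleton_iff] at hT
      rw [hT]; exact hW 1
  exact h3 (hle hS)

end Pool.Agent.H94.MG
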